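import Mathlib
import Pool.Agent.H29.EGZ.Moments

/-!
# Caps in `(ZMod 3)^5`: functionals constant on a cap, mixed moment identity, local certificates
-/

set_option autoImplicit false

namespace Pool.Agent.H94.Cap5

open Finset Pool.Agent.H29.EGZ

/-! ### subsets of caps -/

lemma IsCap.mono {K D : Finset W5} (hD : IsCap D) (h : K ⊆ D) : IsCap K :=
  fun T hT hc => hD T (hT.trans h) hc

/-- for a cap, `u + v + w = 0` with all three in the cap forces `u = v` -/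
lemma cap_eq {D : Finset W5} (hD : IsCap D) {u v w : W5} (hu : u ∈ D) (hv : v ∈ D) (hw : w ∈ D)
    (h : u + v + w = 0) : u = v := by
  have : -(u + v) ∈ D := by
    have : -(u + v) = w := by
      rw [neg_eq_iff_add_eq_zero]; exact h
    rw [this]; exact hw
  exact (hD.neg_add_mem three_smul_W5 hu hv).mp this

/-! ### sums attached to a section triple -/

/-- sum of squares of the three sections -/
def s2 (K : Finset W5) (ξ : W5) : ℕ := ∑ j : ZMod 3, sec K ξ j * sec K ξ j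

/-- cubic sum of the three sections -/
def s3 (K : Finset W5) (ξ : W5) : ℕ :=
  ∑ j : ZMod 3, ∑ k : ZMod 3, sec K ξ j * (sec K ξ k * sec K ξ (-(j + k)))

/-- mixed sum -/
def mx (K1 K2 K3 : Finset W5) (ξ : W5) : ℕ :=
  ∑ j : ZMod 3, ∑ k : ZMod 3, sec K1 ξ j * (sec K2 ξ k * sec K3 ξ (-(j + k)))

lemma sum_s2 (K : Finset W5) : ∑ ξ : W5, s2 K ξ = 81 * K.card * K.card + 162 * K.card :=
  sum_sec_sq K

lemma sum_s3 {K : Finset W5} (hK : IsCap K) : ∑ ξ : W5, s3 K ξ = 81 * K.card ^ 3 + 162 * K.card :=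
  sum_sec_cube K hK

lemma sum_mx (K1 K2 K3 : Finset W5) (h : ∀ u ∈ K1, ∀ v ∈ K2, -(u + v) ∉ K3) :
    ∑ ξ : W5, mx K1 K2 K3 ξ = 81 * (K1.card * (K2.card * K3.card)) := by
  have h1 : ∀ ξ : W5, mx K1 K2 K3 ξ =
      ∑ u ∈ K1, ∑ v ∈ K2, sec K3 ξ (dotProduct ξ (-(u + v))) := by
    intro ξ
    unfold mx
    have h2 : ∀ j : ZMod 3, ∑ k : ZMod 3, sec K1 ξ j * (sec K2 ξ k * sec K3 ξ (-(j + k))) =
        sec K1 ξ j * ∑ v ∈ K2, sec K3 ξ (-(j + dotProduct ξ v)) := by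
      intro j
      rw [← Finset.mul_sum, sum_mem_sec K2 ξ (fun k => sec K3 ξ (-(j + k)))]
    rw [Finset.sum_congr rfl (fun j _ => h2 j),
      ← sum_mem_sec K1 ξ (fun j => ∑ v ∈ K2, sec K3 ξ (-(j + dotProduct ξ v)))]
    refine Finset.sum_congr rfl fun u _ => Finset.sum_congr rfl fun v _ => ?_
    rw [dotProduct_neg, dotProduct_add]
  rw [Finset.sum_congr rfl (fun ξ _ => h1 ξ), Finset.sum_comm]
  have h2 : ∀ u ∈ K1, ∑ ξ : W5, ∑ v ∈ K2, sec K3 ξ (dotProduct ξ (-(u + v))) =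
      K2.card * (81 * K3.card) := by
    intro u hu
    rw [Finset.sum_comm, Finset.sum_congr rfl (fun v _ => sum_sec K3 (-(u + v))),
      Finset.sum_add_distrib, Finset.sum_const, smul_eq_mul,
      Finset.sum_congr rfl (g := fun _ => 0) (fun v hv => if_neg (h u hu v hv)),
      Finset.sum_const_zero, add_zero]
  rw [Finset.sum_congr rfl h2, Finset.sum_const, smul_eq_mul]
  ring

lemma sec_const {K : Finset W5} {ξ : W5} {c : ZMod 3} (h : ∀ x ∈ K, dotProduct ξ x = c)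
    (j : ZMod 3) : sec K ξ j = if j = c then K.card else 0 := by
  unfold sec
  by_cases hj : j = c
  · subst hj
    rw [if_pos rfl, Finset.filter_true_of_mem h]
  · rw [if_neg hj, Finset.card_eq_zero, Finset.filter_eq_empty_iff]
    intro x hx he
    exact hj (he.symm.trans (h x hx))

lemma s2_const {K : Finset W5} {ξ : W5} {c : ZMod 3} (h : ∀ x ∈ K, dotProduct ξ x = c) :
    s2 K ξ = K.card * K.card := by
  unfold s2
  simp only [sec_const h]
  rw [Finset.sum_eq_single c]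
  · simp
  · intro b _ hb; simp [hb]
  · simp

lemma mx_const {K1 K2 K3 : Finset W5} {ξ : W5} {a b c : ZMod 3}
    (h1 : ∀ x ∈ K1, dotProduct ξ x = a) (h2 : ∀ x ∈ K2, dotProduct ξ x = b)
    (h3 : ∀ x ∈ K3, dotProduct ξ x = c) (habc : a + b + c = 0) :
    mx K1 K2 K3 ξ = K1.card * (K2.card * K3.card) := by
  unfold mx
  simp only [sec_const h1, sec_const h2, sec_const h3]
  have hc : -(a + b) = c := by rw [neg_eq_iff_add_eq_zero]; exact habc
  rw [Finset.sum_eq_single a, Finset.sum_eq_single b]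
  · rw [if_pos rfl, if_pos rfl, hc, if_pos rfl]
  · intro d _ hd; simp [hd]
  · simp
  · intro d _ hd; simp [hd]
  · simp

lemma s3_const {K : Finset W5} {ξ : W5} {c : ZMod 3} (h : ∀ x ∈ K, dotProduct ξ x = c) :
    s3 K ξ = K.card ^ 3 := by
  have hc : ∀ c : ZMod 3, c + c + c = 0 := by decide
  have := mx_const h h h (hc c)
  unfold mx at this
  unfold s3
  rw [this]; ring

/-! ### the local certificate lemma -/

/-- weights of a local certificate -/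
structure Wt where
  l0 : ℤ
  a2 : ℤ
  a3 : ℤ
  b2 : ℤ
  b3 : ℤ
  c2 : ℤ
  c3 : ℤ
  m : ℤ

/-- value of the certificate at a functional -/
def Wt.val (w : Wt) (K1 K2 K3 : Finset W5) (ξ : W5) : ℤ :=
  w.l0 + w.a2 * s2 K1 ξ + w.a3 * s3 K1 ξ + w.b2 * s2 K2 ξ + w.b3 * s3 K2 ξ +
    w.c2 * s2 K3 ξ + w.c3 * s3 K3 ξ + w.m * mx K1 K2 K3 ξ

/-- total of the certificate outside `n` constant functionals -/
def Wt.tot (w : Wt) (n A B C : ℤ) : ℤ :=
  w.l0 * (243 - n) + w.a2 * (81 * A * A + 162 * A - n * (A * A)) +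
    w.a3 * (81 * A ^ 3 + 162 * A - n * A ^ 3) + w.b2 * (81 * B * B + 162 * B - n * (B * B)) +
    w.b3 * (81 * B ^ 3 + 162 * B - n * B ^ 3) + w.c2 * (81 * C * C + 162 * C - n * (C * C)) +
    w.c3 * (81 * C ^ 3 + 162 * C - n * C ^ 3) + w.m * ((81 - n) * (A * (B * C)))

lemma Wt.sum_univ (w : Wt) {K1 K2 K3 : Finset W5} (h1 : IsCap K1) (h2 : IsCap K2) (h3 : IsCap K3)
    (h : ∀ u ∈ K1, ∀ v ∈ K2, -(u + v) ∉ K3) :
    ∑ ξ : W5, w.val K1 K2 K3 ξ = w.tot 0 K1.card K2.card K3.card := by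
  unfold Wt.val Wt.tot
  simp only [Finset.sum_add_distrib, ← Finset.mul_sum, Finset.sum_const, Finset.card_univ,
    card_W5, nsmul_eq_mul]
  have e1 := sum_s2 K1
  have e2 := sum_s2 K2
  have e3 := sum_s2 K3
  have f1 := sum_s3 h1
  have f2 := sum_s3 h2
  have f3 := sum_s3 h3
  have g := sum_mx K1 K2 K3 h
  zify at e1 e2 e3 f1 f2 f3 g
  rw [e1, e2, e3, f1, f2, f3, g]
  push_cast
  ring

lemma Wt.sum_diff (w : Wt) {K1 K2 K3 : Finset W5} (h1 : IsCap K1) (h2 : IsCap K2) (h3 : IsCap K3)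
    (h : ∀ u ∈ K1, ∀ v ∈ K2, -(u + v) ∉ K3) (U : Finset W5)
    (hU : ∀ ξ ∈ U, ∃ a b c : ZMod 3, a + b + c = 0 ∧ (∀ x ∈ K1, dotProduct ξ x = a) ∧
      (∀ x ∈ K2, dotProduct ξ x = b) ∧ (∀ x ∈ K3, dotProduct ξ x = c)) :
    ∑ ξ ∈ univ \ U, w.val K1 K2 K3 ξ = w.tot U.card K1.card K2.card K3.card := by
  have hsplit := Finset.sum_sdiff (Finset.subset_univ U) (f := fun ξ => w.val K1 K2 K3 ξ)
  rw [w.sum_univ h1 h2 h3 h] at hsplit
  have hUs : ∑ ξ ∈ U, w.val K1 K2 K3 ξ = U.card * (w.l0 + w.a2 * (K1.card * K1.card) +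
      w.a3 * K1.card ^ 3 + w.b2 * (K2.card * K2.card) + w.b3 * K2.card ^ 3 +
      w.c2 * (K3.card * K3.card) + w.c3 * K3.card ^ 3 +
      w.m * (K1.card * (K2.card * K3.card))) := by
    rw [Finset.sum_congr rfl (g := fun _ => (w.l0 + w.a2 * (K1.card * K1.card) +
      w.a3 * K1.card ^ 3 + w.b2 * (K2.card * K2.card) + w.b3 * K2.card ^ 3 +
      w.c2 * (K3.card * K3.card) + w.c3 * K3.card ^ 3 +
      w.m * (K1.card * (K2.card * K3.card)))), Finset.sum_const, nsmul_eq_mul]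
    intro ξ hξ
    obtain ⟨a, b, c, habc, ha, hb, hc⟩ := hU ξ hξ
    unfold Wt.val
    rw [s2_const ha, s2_const hb, s2_const hc, s3_const ha, s3_const hb, s3_const hc,
      mx_const ha hb hc habc]
    push_cast
    ring
  rw [hUs] at hsplit
  have : ∑ ξ ∈ univ \ U, w.val K1 K2 K3 ξ = w.tot 0 K1.card K2.card K3.card -
      U.card * (w.l0 + w.a2 * (K1.card * K1.card) +
      w.a3 * K1.card ^ 3 + w.b2 * (K2.card * K2.card) + w.b3 * K2.card ^ 3 +
      w.c2 * (K3.card * K3.card) + w.c3 * K3.card ^ 3 +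
      w.m * (K1.card * (K2.card * K3.card))) := by
    linarith
  rw [this]
  unfold Wt.tot
  ring

/-- **Local certificate lemma.** -/
theorem Wt.nonneg (w : Wt) {K1 K2 K3 : Finset W5} (h1 : IsCap K1) (h2 : IsCap K2) (h3 : IsCap K3)
    (h : ∀ u ∈ K1, ∀ v ∈ K2, -(u + v) ∉ K3) (U : Finset W5)
    (hU : ∀ ξ ∈ U, ∃ a b c : ZMod 3, a + b + c = 0 ∧ (∀ x ∈ K1, dotProduct ξ x = a) ∧
      (∀ x ∈ K2, dotProduct ξ x = b) ∧ (∀ x ∈ K3, dotProduct ξ x = c))
    (hpos : ∀ ξ, ξ ∉ U → 0 ≤ w.val K1 K2 K3 ξ) :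
    0 ≤ w.tot U.card K1.card K2.card K3.card := by
  rw [← w.sum_diff h1 h2 h3 h U hU]
  refine Finset.sum_nonneg fun ξ hξ => hpos ξ ?_
  exact (Finset.mem_sdiff.mp hξ).2

end Pool.Agent.H94.Cap5
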