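import Mathlib
import Pool.Agent.H94.Cap5.Basic

/-!
# Subgroups of functionals constant on a cap, and the level predicate
-/

set_option autoImplicit false

namespace Pool.Agent.H94.Cap5

open Finset Pool.Agent.H29.EGZ

/-- subgroup of functionals, as a finset -/
structure IsSub (U : Finset W5) : Prop where
  zero : (0 : W5) ∈ U
  add : ∀ a ∈ U, ∀ b ∈ U, a + b ∈ U

lemma neg_eq_add (a : W5) : -a = a + a := by
  funext i
  have : ∀ t : ZMod 3, -t = t + t := by decide
  exact this (a i)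

lemma IsSub.neg {U : Finset W5} (hU : IsSub U) {a : W5} (ha : a ∈ U) : -a ∈ U := by
  rw [neg_eq_add]; exact hU.add a ha a ha

lemma IsSub.sub {U : Finset W5} (hU : IsSub U) {a b : W5} (ha : a ∈ U) (hb : b ∈ U) :
    a - b ∈ U := by
  rw [sub_eq_add_neg]; exact hU.add a ha _ (hU.neg hb)

lemma IsSub.smul {U : Finset W5} (hU : IsSub U) {a : W5} (ha : a ∈ U) (t : ZMod 3) :
    t • a ∈ U := by
  have h3 : t = 0 ∨ t = 1 ∨ t = 2 := by revert t; decide
  rcases h3 with rfl | rfl | rfl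
  · rw [zero_smul]; exact hU.zero
  · rw [one_smul]; exact ha
  · have : (2 : ZMod 3) • a = a + a := two_smul _ a
    rw [this]; exact hU.add a ha a ha

lemma isSub_zero : IsSub ({0} : Finset W5) where
  zero := by simp
  add := by
    intro a ha b hb
    rw [Finset.mem_singleton] at *
    rw [ha, hb, add_zero]

/-- the subgroup generated by `U` and `h` -/
def ext (U : Finset W5) (h : W5) : Finset W5 :=
  (U ×ˢ (univ : Finset (ZMod 3))).image (fun p => p.1 + p.2 • h)

lemma mem_ext {U : Finset W5} {h ξ : W5} :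
    ξ ∈ ext U h ↔ ∃ u ∈ U, ∃ t : ZMod 3, u + t • h = ξ := by
  unfold ext
  simp only [Finset.mem_image, Finset.mem_product, Finset.mem_univ, and_true, Prod.exists]
  constructor
  · rintro ⟨u, t, hu, e⟩
    exact ⟨u, hu, t, e⟩
  · rintro ⟨u, hu, t, e⟩
    exact ⟨u, t, hu, e⟩

lemma isSub_ext {U : Finset W5} (hU : IsSub U) (h : W5) : IsSub (ext U h) where
  zero := mem_ext.mpr ⟨0, hU.zero, 0, by simp⟩
  add := by
    intro a ha b hb
    obtain ⟨u, hu, t, rfl⟩ := mem_ext.mp ha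
    obtain ⟨v, hv, s, rfl⟩ := mem_ext.mp hb
    refine mem_ext.mpr ⟨u + v, hU.add u hu v hv, t + s, ?_⟩
    rw [add_smul]; abel

lemma subset_ext (U : Finset W5) (h : W5) : U ⊆ ext U h :=
  fun u hu => mem_ext.mpr ⟨u, hu, 0, by simp⟩

lemma self_mem_ext {U : Finset W5} (hU : IsSub U) (h : W5) : h ∈ ext U h :=
  mem_ext.mpr ⟨0, hU.zero, 1, by simp⟩

lemma card_ext {U : Finset W5} (hU : IsSub U) {h : W5} (hh : h ∉ U) :
    (ext U h).card = 3 * U.card := by
  unfold ext
  rw [Finset.card_image_of_injOn, Finset.card_product, Finset.card_univ, ZMod.card, mul_comm]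
  intro p hp q hq e
  have hp1 : p.1 ∈ U := by
    have := Finset.mem_coe.mp hp
    exact (Finset.mem_product.mp this).1
  have hq1 : q.1 ∈ U := by
    have := Finset.mem_coe.mp hq
    exact (Finset.mem_product.mp this).1
  simp only at e
  have h1 : (p.2 - q.2) • h = q.1 - p.1 := by
    rw [sub_smul]
    have : p.2 • h = q.1 + q.2 • h - p.1 := by rw [← e]; abel
    rw [this]; abel
  have h2 : p.2 = q.2 := by
    by_contra hne
    apply hh
    have hd : p.2 - q.2 ≠ 0 := sub_ne_zero.mpr hne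
    have h3 : h = (p.2 - q.2)⁻¹ • (q.1 - p.1) := by
      rw [← h1, smul_smul, inv_mul_cancel₀ hd, one_smul]
    rw [h3]
    exact hU.smul (hU.sub hq1 hp1) _
  have h3 : p.1 = q.1 := by
    rw [h2, sub_self, zero_smul] at h1
    exact (sub_eq_zero.mp h1.symm).symm
  exact Prod.ext h3 h2

/-- if `ξ ∉ ⟨U, h⟩` and `h ∉ U` then `h ∉ ⟨U, ξ + t h⟩` -/
lemma not_mem_ext_swap {U : Finset W5} (hU : IsSub U) {h ξ : W5} (hh : h ∉ U)
    (hξ : ξ ∉ ext U h) (t : ZMod 3) : h ∉ ext U (ξ + t • h) := by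
  intro hm
  obtain ⟨u, hu, s, e⟩ := mem_ext.mp hm
  by_cases hs : s = 0
  · rw [hs, zero_smul, add_zero] at e
    exact hh (e ▸ hu)
  · apply hξ
    have h1 : s • ξ = h - u - s • (t • h) := by
      have : s • (ξ + t • h) = h - u := eq_sub_of_add_eq' e
      rw [smul_add] at this
      rw [← this]; abel
    have h2 : ξ = s⁻¹ • (h - u - s • (t • h)) := by
      rw [← h1, smul_smul, inv_mul_cancel₀ hs, one_smul]
    rw [h2]
    have hs' := isSub_ext hU h
    refine hs'.smul (hs'.sub (hs'.sub (self_mem_ext hU h) (subset_ext U h hu)) ?_) _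
    exact hs'.smul (hs'.smul (self_mem_ext hU h) _) _

lemma not_mem_of_not_mem_ext {U : Finset W5} {h ξ : W5}
    (hξ : ξ ∉ ext U h) (t : ZMod 3) : ξ + t • h ∉ U := by
  intro hm
  apply hξ
  refine mem_ext.mpr ⟨ξ + t • h, hm, -t, ?_⟩
  rw [neg_smul]; abel

/-- every functional of `U` is constant on `K` -/
def ConstOn (U K : Finset W5) : Prop := ∀ ξ ∈ U, ∃ c : ZMod 3, ∀ x ∈ K, dotProduct ξ x = c

lemma ConstOn.mono {U K L : Finset W5} (h : ConstOn U K) (hL : L ⊆ K) : ConstOn U L := by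
  intro ξ hξ
  obtain ⟨c, hc⟩ := h ξ hξ
  exact ⟨c, fun x hx => hc x (hL hx)⟩

lemma constOn_zero (K : Finset W5) : ConstOn {0} K := by
  intro ξ hξ
  rw [Finset.mem_singleton] at hξ
  exact ⟨0, fun x _ => by rw [hξ, zero_dotProduct]⟩

lemma ConstOn.ext {U K : Finset W5} (h : ConstOn U K) {η : W5} {c : ZMod 3}
    (hc : ∀ x ∈ K, dotProduct η x = c) : ConstOn (ext U η) K := by
  intro ξ hξ
  obtain ⟨u, hu, t, rfl⟩ := mem_ext.mp hξ
  obtain ⟨d, hd⟩ := h u hu
  refine ⟨d + t * c, fun x hx => ?_⟩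
  rw [add_dotProduct, smul_dotProduct, hd x hx, hc x hx, smul_eq_mul]

/-- a section as a finset -/
def secSet (K : Finset W5) (ξ : W5) (j : ZMod 3) : Finset W5 :=
  K.filter (fun x => dotProduct ξ x = j)

lemma secSet_card (K : Finset W5) (ξ : W5) (j : ZMod 3) : (secSet K ξ j).card = sec K ξ j := rfl

lemma secSet_subset (K : Finset W5) (ξ : W5) (j : ZMod 3) : secSet K ξ j ⊆ K :=
  Finset.filter_subset _ _

lemma mem_secSet {K : Finset W5} {ξ : W5} {j : ZMod 3} {x : W5} :
    x ∈ secSet K ξ j ↔ x ∈ K ∧ dotProduct ξ x = j := Finset.mem_filter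

lemma ConstOn.secSet {U K : Finset W5} (h : ConstOn U K) (η : W5) (c : ZMod 3) :
    ConstOn (Cap5.ext U η) (secSet K η c) :=
  (h.mono (secSet_subset K η c)).ext (c := c) (fun _ hx => (mem_secSet.mp hx).2)

/-- the cell `h = c`, `ξ = j` -/
def cell (K : Finset W5) (h ξ : W5) (c j : ZMod 3) : ℕ := sec (Cap5.secSet K h c) ξ j

lemma cell_eq (K : Finset W5) (h ξ : W5) (c j : ZMod 3) :
    cell K h ξ c j = (K.filter (fun x => dotProduct h x = c ∧ dotProduct ξ x = j)).card := by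
  unfold cell sec secSet
  rw [Finset.filter_filter]

/-- the level predicate: `OK` holds for the section sizes of every cap on which a subgroup with
`m` functionals is constant -/
def Lev (m : ℕ) (OK : ℕ → ℕ → ℕ → Prop) : Prop :=
  ∀ K U : Finset W5, IsCap K → IsSub U → U.card = m → ConstOn U K →
    ∀ ξ, ξ ∉ U → OK (sec K ξ 0) (sec K ξ 1) (sec K ξ 2)

/-- line sections of the `3 × 3` grid -/
lemma line_sec (K : Finset W5) (h ξ : W5) (t e c : ZMod 3) :
    sec (secSet K (ξ + t • h) e) h c = cell K h ξ c (e - t * c) := by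
  rw [cell_eq]
  unfold sec secSet
  rw [Finset.filter_filter]
  congr 1
  ext x
  simp only [Finset.mem_filter]
  rw [add_dotProduct, smul_dotProduct, smul_eq_mul]
  constructor
  · rintro ⟨hx, h1, h2⟩
    refine ⟨hx, h2, ?_⟩
    rw [← h1, h2]; ring
  · rintro ⟨hx, h1, h2⟩
    refine ⟨hx, ?_, h1⟩
    rw [h1, h2]; ring

/-- constraints on the grid of cells -/
theorem Lev.grid {m : ℕ} {OK : ℕ → ℕ → ℕ → Prop} (hL : Lev (3 * m) OK) {K U : Finset W5}
    (hK : IsCap K) (hU : IsSub U) (hm : U.card = m) (hc : ConstOn U K) {h ξ : W5} (hh : h ∉ U)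
    (hξ : ξ ∉ ext U h) :
    (∀ c : ZMod 3, OK (cell K h ξ c 0) (cell K h ξ c 1) (cell K h ξ c 2)) ∧
      (∀ t e : ZMod 3, OK (cell K h ξ 0 e) (cell K h ξ 1 (e - t)) (cell K h ξ 2 (e - t * 2))) := by
  constructor
  · intro c
    refine hL (secSet K h c) (ext U h) (IsCap.mono hK (secSet_subset _ _ _)) (isSub_ext hU h)
      (by rw [card_ext hU hh, hm]) (hc.secSet h c) ξ hξ
  · intro t e
    have h1 := hL (secSet K (ξ + t • h) e) (ext U (ξ + t • h))
      (IsCap.mono hK (secSet_subset _ _ _)) (isSub_ext hU _)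
      (by rw [card_ext hU (not_mem_of_not_mem_ext hξ t), hm]) (hc.secSet _ e) h
      (not_mem_ext_swap hU hh hξ t)
    rw [line_sec, line_sec, line_sec] at h1
    simpa using h1

/-- the sizes of the sections of `ξ + t h` as sums over the grid -/
lemma sec_line (K : Finset W5) (h ξ : W5) (t e : ZMod 3) :
    sec K (ξ + t • h) e = cell K h ξ 0 e + cell K h ξ 1 (e - t) + cell K h ξ 2 (e - t * 2) := by
  have h1 := sec_total (secSet K (ξ + t • h) e) h
  rw [line_sec, line_sec, line_sec, secSet_card] at h1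
  rw [← h1]
  simp

lemma sec_row (K : Finset W5) (h ξ : W5) (c : ZMod 3) :
    sec K h c = cell K h ξ c 0 + cell K h ξ c 1 + cell K h ξ c 2 := by
  have h1 := sec_total (secSet K h c) ξ
  rw [secSet_card] at h1
  exact h1.symm

end Pool.Agent.H94.Cap5
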