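import Mathlib
import Pool.Agent.H94.Cap5.Sub

/-!
# Kernel-friendly checkers for the local certificates
-/

set_option autoImplicit false

namespace Pool.Agent.H94.Cap5

open Finset Pool.Agent.H29.EGZ

/-- lazy implication -/
def imp (g b : Bool) : Bool := Bool.rec (motive := fun _ => Bool) true b g

lemma imp_spec {g b : Bool} (h : imp g b = true) (hg : g = true) : b = true := by
  subst hg; exact h

/-- lazy conjunction -/
def andb (a b : Bool) : Bool := Bool.rec (motive := fun _ => Bool) false b a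

lemma andb_spec {a b : Bool} (h : andb a b = true) : a = true ∧ b = true := by
  cases a
  · exact absurd h (by simp [andb])
  · exact ⟨rfl, h⟩

/-- evaluate a number to a literal and continue -/
def frc (x : ℕ) (F : ℕ → Bool) : Bool :=
  Nat.rec (motive := fun _ => Bool) (F 0) (fun k _ => F (Nat.succ k)) x

lemma frc_eq (x : ℕ) (F : ℕ → Bool) : frc x F = F x := by
  cases x <;> rfl

/-- check all numbers below `n` -/
def loopN (n : ℕ) (p : ℕ → Bool) : Bool :=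
  Nat.rec (motive := fun _ => Bool) true (fun k ih => Bool.rec (motive := fun _ => Bool) false ih (p k)) n

lemma loopN_spec {n : ℕ} {p : ℕ → Bool} (h : loopN n p = true) : ∀ k < n, p k = true := by
  induction n with
  | zero => intro k hk; omega
  | succ n ih =>
    have h' : (Bool.rec (motive := fun _ => Bool) false (loopN n p) (p n) : Bool) = true := h
    cases hp : p n with
    | false => rw [hp] at h'; exact absurd h' (by simp)
    | true =>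
      rw [hp] at h'
      intro k hk
      rcases Nat.lt_succ_iff_lt_or_eq.mp hk with h1 | h1
      · exact ih h' k h1
      · rw [h1]; exact hp

/-- loop over all triples with entries at most `E` and sum `A` -/
def loop3 (E A : ℕ) (p : ℕ → ℕ → ℕ → Bool) : Bool :=
  loopN (Nat.succ E) fun a => loopN (Nat.succ E) fun b =>
    imp (Nat.ble (Nat.add a b) A) (frc (Nat.sub A (Nat.add a b)) fun c =>
      imp (Nat.ble c E) (p a b c))

lemma loop3_spec {E A : ℕ} {p : ℕ → ℕ → ℕ → Bool} (h : loop3 E A p = true) {a b c : ℕ}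
    (ha : a ≤ E) (hb : b ≤ E) (hc : c ≤ E) (hs : a + b + c = A) : p a b c = true := by
  have h1 := loopN_spec (loopN_spec h a (Nat.lt_succ_of_le ha)) b (Nat.lt_succ_of_le hb)
  have h2 := imp_spec h1 (by rw [Nat.ble_eq]; show a + b ≤ A; omega)
  rw [frc_eq] at h2
  have e : Nat.sub A (Nat.add a b) = c := by show A - (a + b) = c; omega
  rw [e] at h2
  exact imp_spec h2 (by rw [Nat.ble_eq]; exact hc)

/-- sum of three numbers -/
def sm3 (a b c : ℕ) : ℕ := Nat.add (Nat.add a b) c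

/-- sum of the squares -/
def sq3 (a b c : ℕ) : ℕ := Nat.add (Nat.add (Nat.mul a a) (Nat.mul b b)) (Nat.mul c c)

/-- cubic form -/
def cu3 (a b c : ℕ) : ℕ :=
  Nat.add (Nat.add (Nat.add (Nat.mul a (Nat.mul a a)) (Nat.mul b (Nat.mul b b)))
    (Nat.mul c (Nat.mul c c))) (Nat.mul 6 (Nat.mul a (Nat.mul b c)))

/-- admissible triples: entries at most `E`, and a condition on the sum and the sum of squares -/
def OK (E : ℕ) (f : ℕ → ℕ → Bool) (a b c : ℕ) : Prop :=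
  a ≤ E ∧ b ≤ E ∧ c ≤ E ∧ f (sm3 a b c) (sq3 a b c) = true

lemma OK.perm12 {E : ℕ} {f : ℕ → ℕ → Bool} {a b c : ℕ} (h : OK E f a b c) : OK E f b a c := by
  obtain ⟨h1, h2, h3, h4⟩ := h
  refine ⟨h2, h1, h3, ?_⟩
  have e1 : sm3 b a c = sm3 a b c := by unfold sm3; show b + a + c = a + b + c; omega
  have e2 : sq3 b a c = sq3 a b c := by
    unfold sq3; show b * b + a * a + c * c = a * a + b * b + c * c; ring
  rw [e1, e2]; exact h4

lemma OK.perm23 {E : ℕ} {f : ℕ → ℕ → Bool} {a b c : ℕ} (h : OK E f a b c) : OK E f a c b := by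
  obtain ⟨h1, h2, h3, h4⟩ := h
  refine ⟨h1, h3, h2, ?_⟩
  have e1 : sm3 a c b = sm3 a b c := by unfold sm3; show a + c + b = a + b + c; omega
  have e2 : sq3 a c b = sq3 a b c := by
    unfold sq3; show a * a + c * c + b * b = a * a + b * b + c * c; ring
  rw [e1, e2]; exact h4

/-- nonnegative weights -/
structure WN where
  l0 : ℕ
  a2 : ℕ
  a3 : ℕ
  b2 : ℕ
  b3 : ℕ
  c2 : ℕ
  c3 : ℕ
  m : ℕ

/-- check of the line conditions for given rows -/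
def lines (f : ℕ → ℕ → Bool) (a0 a1 a2 b0 b1 b2 c0 c1 c2 : ℕ) : Bool :=
  andb (f (sm3 a0 b0 c0) (sq3 a0 b0 c0)) <| andb (f (sm3 a1 b1 c1) (sq3 a1 b1 c1)) <|
  andb (f (sm3 a2 b2 c2) (sq3 a2 b2 c2)) <| andb (f (sm3 a0 b1 c2) (sq3 a0 b1 c2)) <|
  andb (f (sm3 a1 b2 c0) (sq3 a1 b2 c0)) <| andb (f (sm3 a2 b0 c1) (sq3 a2 b0 c1)) <|
  andb (f (sm3 a0 b2 c1) (sq3 a0 b2 c1)) <| andb (f (sm3 a1 b0 c2) (sq3 a1 b0 c2)) <|
  f (sm3 a2 b1 c0) (sq3 a2 b1 c0)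

/-- mixed sum of three rows -/
def mix9 (a0 a1 a2 b0 b1 b2 c0 c1 c2 : ℕ) : ℕ :=
  Nat.add (Nat.add
    (Nat.mul c0 (Nat.add (Nat.add (Nat.mul a0 b0) (Nat.mul a1 b2)) (Nat.mul a2 b1)))
    (Nat.mul c1 (Nat.add (Nat.add (Nat.mul a0 b2) (Nat.mul a1 b1)) (Nat.mul a2 b0))))
    (Nat.mul c2 (Nat.add (Nat.add (Nat.mul a0 b1) (Nat.mul a1 b0)) (Nat.mul a2 b2)))

/-- sum of squares of the three line sums of a class -/
def cls (x0 x1 x2 y0 y1 y2 z0 z1 z2 : ℕ) : ℕ :=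
  sq3 (sm3 x0 x1 x2) (sm3 y0 y1 y2) (sm3 z0 z1 z2)

/-- the local check: `n ≤ p` on all admissible grids with row sums `A, B, C`; `g` is a condition on
the three other parallel classes -/
def chkL (E : ℕ) (f : ℕ → ℕ → Bool) (g : ℕ → Bool) (p n : WN) (A B C : ℕ) : Bool :=
  loop3 E A fun a0 a1 a2 => imp (f (sm3 a0 a1 a2) (sq3 a0 a1 a2)) <|
  loop3 E B fun b0 b1 b2 => imp (f (sm3 b0 b1 b2) (sq3 b0 b1 b2)) <|
  frc (Nat.add (Nat.add p.l0 (Nat.add (Nat.mul p.a2 (sq3 a0 a1 a2)) (Nat.mul p.a3 (cu3 a0 a1 a2))))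
    (Nat.add (Nat.mul p.b2 (sq3 b0 b1 b2)) (Nat.mul p.b3 (cu3 b0 b1 b2)))) fun P =>
  frc (Nat.add (Nat.add n.l0 (Nat.add (Nat.mul n.a2 (sq3 a0 a1 a2)) (Nat.mul n.a3 (cu3 a0 a1 a2))))
    (Nat.add (Nat.mul n.b2 (sq3 b0 b1 b2)) (Nat.mul n.b3 (cu3 b0 b1 b2)))) fun N =>
  loop3 E C fun c0 c1 c2 => imp (f (sm3 c0 c1 c2) (sq3 c0 c1 c2)) <|
  imp (lines f a0 a1 a2 b0 b1 b2 c0 c1 c2) <|
  imp (g (cls a0 b0 c0 a1 b1 c1 a2 b2 c2)) <|
  imp (g (cls a0 b1 c2 a1 b2 c0 a2 b0 c1)) <|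
  imp (g (cls a0 b2 c1 a1 b0 c2 a2 b1 c0)) <|
  frc (mix9 a0 a1 a2 b0 b1 b2 c0 c1 c2) fun M =>
  Nat.ble
    (Nat.add (Nat.add N (Nat.add (Nat.mul n.c2 (sq3 c0 c1 c2)) (Nat.mul n.c3 (cu3 c0 c1 c2))))
      (Nat.mul n.m M))
    (Nat.add (Nat.add P (Nat.add (Nat.mul p.c2 (sq3 c0 c1 c2)) (Nat.mul p.c3 (cu3 c0 c1 c2))))
      (Nat.mul p.m M))

/-- value of nonnegative weights on a grid -/
def WN.ev (p : WN) (a0 a1 a2 b0 b1 b2 c0 c1 c2 : ℕ) : ℕ :=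
  p.l0 + (p.a2 * sq3 a0 a1 a2 + p.a3 * cu3 a0 a1 a2) + (p.b2 * sq3 b0 b1 b2 + p.b3 * cu3 b0 b1 b2) +
    (p.c2 * sq3 c0 c1 c2 + p.c3 * cu3 c0 c1 c2) + p.m * mix9 a0 a1 a2 b0 b1 b2 c0 c1 c2

/-- all conditions on a grid used by the check -/
structure GridOK (E : ℕ) (f : ℕ → ℕ → Bool) (g : ℕ → Bool)
    (a0 a1 a2 b0 b1 b2 c0 c1 c2 : ℕ) : Prop where
  ra : OK E f a0 a1 a2
  rb : OK E f b0 b1 b2
  rc : OK E f c0 c1 c2
  l000 : f (sm3 a0 b0 c0) (sq3 a0 b0 c0) = true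
  l111 : f (sm3 a1 b1 c1) (sq3 a1 b1 c1) = true
  l222 : f (sm3 a2 b2 c2) (sq3 a2 b2 c2) = true
  l012 : f (sm3 a0 b1 c2) (sq3 a0 b1 c2) = true
  l120 : f (sm3 a1 b2 c0) (sq3 a1 b2 c0) = true
  l201 : f (sm3 a2 b0 c1) (sq3 a2 b0 c1) = true
  l021 : f (sm3 a0 b2 c1) (sq3 a0 b2 c1) = true
  l102 : f (sm3 a1 b0 c2) (sq3 a1 b0 c2) = true
  l210 : f (sm3 a2 b1 c0) (sq3 a2 b1 c0) = true
  g0 : g (cls a0 b0 c0 a1 b1 c1 a2 b2 c2) = true
  g1 : g (cls a0 b1 c2 a1 b2 c0 a2 b0 c1) = true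
  g2 : g (cls a0 b2 c1 a1 b0 c2 a2 b1 c0) = true

lemma andb_intro {a b : Bool} (ha : a = true) (hb : b = true) : andb a b = true := by
  subst ha; exact hb

theorem chkL_sound {E : ℕ} {f : ℕ → ℕ → Bool} {g : ℕ → Bool} {p n : WN} {A B C : ℕ}
    (h : chkL E f g p n A B C = true) {a0 a1 a2 b0 b1 b2 c0 c1 c2 : ℕ}
    (hG : GridOK E f g a0 a1 a2 b0 b1 b2 c0 c1 c2)
    (hA : a0 + a1 + a2 = A) (hB : b0 + b1 + b2 = B) (hC : c0 + c1 + c2 = C) :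
    n.ev a0 a1 a2 b0 b1 b2 c0 c1 c2 ≤ p.ev a0 a1 a2 b0 b1 b2 c0 c1 c2 := by
  unfold chkL at h
  have h1 := imp_spec (loop3_spec h hG.ra.1 hG.ra.2.1 hG.ra.2.2.1 hA) hG.ra.2.2.2
  have h2 := imp_spec (loop3_spec h1 hG.rb.1 hG.rb.2.1 hG.rb.2.2.1 hB) hG.rb.2.2.2
  rw [frc_eq, frc_eq] at h2
  have h3 := imp_spec (loop3_spec h2 hG.rc.1 hG.rc.2.1 hG.rc.2.2.1 hC) hG.rc.2.2.2
  have h4 := imp_spec h3 (by
    unfold lines
    exact andb_intro hG.l000 <| andb_intro hG.l111 <| andb_intro hG.l222 <|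
      andb_intro hG.l012 <| andb_intro hG.l120 <| andb_intro hG.l201 <|
      andb_intro hG.l021 <| andb_intro hG.l102 hG.l210)
  have h5 := imp_spec (imp_spec (imp_spec h4 hG.g0) hG.g1) hG.g2
  rw [frc_eq, Nat.ble_eq] at h5
  exact h5

end Pool.Agent.H94.Cap5
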