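import Mathlib
import Pool.Agent.H94.Cap5.Check

/-!
# Soundness of the local certificates
-/

set_option autoImplicit false

namespace Pool.Agent.H94.Cap5

open Finset Pool.Agent.H29.EGZ

lemma s2_eq (K : Finset W5) (ξ : W5) : s2 K ξ = sq3 (sec K ξ 0) (sec K ξ 1) (sec K ξ 2) := by
  unfold s2 sq3
  rw [sum_univ_three]
  rfl

lemma tri : ∀ t : ZMod 3, t = 0 ∨ t = 1 ∨ t = 2 := by decide

lemma neg_tab : (-(0 + 0) : ZMod 3) = 0 ∧ (-(0 + 1) : ZMod 3) = 2 ∧ (-(0 + 2) : ZMod 3) = 1 ∧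
    (-(1 + 0) : ZMod 3) = 2 ∧ (-(1 + 1) : ZMod 3) = 1 ∧ (-(1 + 2) : ZMod 3) = 0 ∧
    (-(2 + 0) : ZMod 3) = 1 ∧ (-(2 + 1) : ZMod 3) = 0 ∧ (-(2 + 2) : ZMod 3) = 2 := by
  decide

lemma mx_eq (K1 K2 K3 : Finset W5) (ξ : W5) : mx K1 K2 K3 ξ =
    mix9 (sec K1 ξ 0) (sec K1 ξ 1) (sec K1 ξ 2) (sec K2 ξ 0) (sec K2 ξ 1) (sec K2 ξ 2)
      (sec K3 ξ 0) (sec K3 ξ 1) (sec K3 ξ 2) := by
  obtain ⟨e1, e2, e3, e4, e5, e6, e7, e8, e9⟩ := neg_tab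
  unfold mx mix9
  simp only [sum_univ_three]
  rw [e1, e2, e3, e4, e5, e6, e7, e8, e9]
  simp only [Nat.add_eq, Nat.mul_eq]
  ring

lemma s3_eq (K : Finset W5) (ξ : W5) : s3 K ξ = cu3 (sec K ξ 0) (sec K ξ 1) (sec K ξ 2) := by
  have h := mx_eq K K K ξ
  have h1 : s3 K ξ = mx K K K ξ := rfl
  rw [h1, h]
  unfold mix9 cu3
  simp only [Nat.add_eq, Nat.mul_eq]
  ring

/-- difference of nonnegative weights -/
def dif (p n : WN) : Wt where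
  l0 := (p.l0 : ℤ) - n.l0
  a2 := (p.a2 : ℤ) - n.a2
  a3 := (p.a3 : ℤ) - n.a3
  b2 := (p.b2 : ℤ) - n.b2
  b3 := (p.b3 : ℤ) - n.b3
  c2 := (p.c2 : ℤ) - n.c2
  c3 := (p.c3 : ℤ) - n.c3
  m := (p.m : ℤ) - n.m

lemma dif_val (p n : WN) (K1 K2 K3 : Finset W5) (ξ : W5) :
    (dif p n).val K1 K2 K3 ξ =
      (p.ev (sec K1 ξ 0) (sec K1 ξ 1) (sec K1 ξ 2) (sec K2 ξ 0) (sec K2 ξ 1) (sec K2 ξ 2)
        (sec K3 ξ 0) (sec K3 ξ 1) (sec K3 ξ 2) : ℤ) -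
      (n.ev (sec K1 ξ 0) (sec K1 ξ 1) (sec K1 ξ 2) (sec K2 ξ 0) (sec K2 ξ 1) (sec K2 ξ 2)
        (sec K3 ξ 0) (sec K3 ξ 1) (sec K3 ξ 2) : ℤ) := by
  unfold Wt.val dif WN.ev
  rw [s2_eq, s2_eq, s2_eq, s3_eq, s3_eq, s3_eq, mx_eq]
  push_cast
  ring

/-- a permutation of the three values together with positions on a line of the grid -/
lemma line_key : ∀ σ0 σ1 σ2 i j k : ZMod 3, σ0 ≠ σ1 → σ0 ≠ σ2 → σ1 ≠ σ2 → i + j + k = 0 →
    ∃ t e : ZMod 3, i = e - t * σ0 ∧ j = e - t * σ1 ∧ k = e - t * σ2 := by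
  decide

lemma perm_key : ∀ σ0 σ1 σ2 : ZMod 3, σ0 ≠ σ1 → σ0 ≠ σ2 → σ1 ≠ σ2 →
    (σ0 = 0 ∧ σ1 = 1 ∧ σ2 = 2) ∨ (σ0 = 0 ∧ σ1 = 2 ∧ σ2 = 1) ∨ (σ0 = 1 ∧ σ1 = 0 ∧ σ2 = 2) ∨
    (σ0 = 1 ∧ σ1 = 2 ∧ σ2 = 0) ∨ (σ0 = 2 ∧ σ1 = 0 ∧ σ2 = 1) ∨ (σ0 = 2 ∧ σ1 = 1 ∧ σ2 = 0) := by
  intro σ0 σ1 σ2 h01 h02 h12
  have t01 : (0 : ZMod 3) ≠ 1 := by decide
  have t02 : (0 : ZMod 3) ≠ 2 := by decide
  have t12 : (1 : ZMod 3) ≠ 2 := by decide
  rcases tri σ0 with rfl | rfl | rfl <;> rcases tri σ1 with rfl | rfl | rfl <;>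
    rcases tri σ2 with rfl | rfl | rfl <;> simp_all

lemma OK_line {E : ℕ} {f : ℕ → ℕ → Bool} {F : ZMod 3 → ZMod 3 → ℕ}
    (h : ∀ t e : ZMod 3, OK E f (F 0 (e - t * 0)) (F 1 (e - t * 1)) (F 2 (e - t * 2)))
    {σ0 σ1 σ2 i j k : ZMod 3} (h01 : σ0 ≠ σ1) (h02 : σ0 ≠ σ2) (h12 : σ1 ≠ σ2)
    (hs : i + j + k = 0) : OK E f (F σ0 i) (F σ1 j) (F σ2 k) := by
  obtain ⟨t, e, rfl, rfl, rfl⟩ := line_key σ0 σ1 σ2 i j k h01 h02 h12 hs
  have := h t e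
  rcases perm_key σ0 σ1 σ2 h01 h02 h12 with ⟨rfl, rfl, rfl⟩ | ⟨rfl, rfl, rfl⟩ | ⟨rfl, rfl, rfl⟩ |
    ⟨rfl, rfl, rfl⟩ | ⟨rfl, rfl, rfl⟩ | ⟨rfl, rfl, rfl⟩
  · exact this
  · exact this.perm23
  · exact this.perm12
  · exact this.perm12.perm23
  · exact this.perm23.perm12
  · exact this.perm12.perm23.perm12

lemma cls_line {F : ZMod 3 → ZMod 3 → ℕ} {s : ZMod 3 → ZMod 3 → ℕ}
    (h : ∀ t e : ZMod 3, s t e = F 0 (e - t * 0) + F 1 (e - t * 1) + F 2 (e - t * 2))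
    {σ0 σ1 σ2 i j k : ZMod 3} (h01 : σ0 ≠ σ1) (h02 : σ0 ≠ σ2) (h12 : σ1 ≠ σ2)
    (hs : i + j + k = 0) :
    ∃ t : ZMod 3, cls (F σ0 i) (F σ1 j) (F σ2 k) (F σ0 (i + 1)) (F σ1 (j + 1)) (F σ2 (k + 1))
      (F σ0 (i + 2)) (F σ1 (j + 2)) (F σ2 (k + 2)) = sq3 (s t 0) (s t 1) (s t 2) := by
  obtain ⟨t, e, rfl, rfl, rfl⟩ := line_key σ0 σ1 σ2 i j k h01 h02 h12 hs
  refine ⟨t, ?_⟩
  have key : ∀ e' : ZMod 3, sm3 (F σ0 (e' - t * σ0)) (F σ1 (e' - t * σ1)) (F σ2 (e' - t * σ2)) =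
      s t e' := by
    intro e'
    rw [h t e']
    unfold sm3
    rcases perm_key σ0 σ1 σ2 h01 h02 h12 with ⟨rfl, rfl, rfl⟩ | ⟨rfl, rfl, rfl⟩ |
      ⟨rfl, rfl, rfl⟩ | ⟨rfl, rfl, rfl⟩ | ⟨rfl, rfl, rfl⟩ | ⟨rfl, rfl, rfl⟩ <;>
    simp only [Nat.add_eq] <;> ring
  unfold cls
  have r1 : ∀ σ : ZMod 3, e - t * σ + 1 = (e + 1) - t * σ := fun σ => by ring
  have r2 : ∀ σ : ZMod 3, e - t * σ + 2 = (e + 2) - t * σ := fun σ => by ring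
  rw [r1, r1, r1, r2, r2, r2, key, key, key]
  have he := tri e
  unfold sq3
  simp only [Nat.add_eq, Nat.mul_eq]
  rcases he with rfl | rfl | rfl
  · rw [show (0 + 1 : ZMod 3) = 1 by decide, show (0 + 2 : ZMod 3) = 2 by decide]
  · rw [show (1 + 1 : ZMod 3) = 2 by decide, show (1 + 2 : ZMod 3) = 0 by decide]
    ring
  · rw [show (2 + 1 : ZMod 3) = 0 by decide, show (2 + 2 : ZMod 3) = 1 by decide]
    ring

/-- **Local certificate theorem.** -/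
theorem local_nonneg {m E : ℕ} {f : ℕ → ℕ → Bool} {g : ℕ → Bool} {p n : WN}
    (hL : Lev (3 * m) (OK E f)) {K U : Finset W5} (hK : IsCap K) (hU : IsSub U)
    (hm : U.card = m) (hc : ConstOn U K) (hg : ∀ ζ, ζ ∉ U → g (s2 K ζ) = true)
    {h : W5} (hh : h ∉ U) {σ0 σ1 σ2 : ZMod 3} (h01 : σ0 ≠ σ1) (h02 : σ0 ≠ σ2) (h12 : σ1 ≠ σ2)
    {A B C : ℕ} (hA : sec K h σ0 = A) (hB : sec K h σ1 = B) (hC : sec K h σ2 = C)
    (hchk : chkL E f g p n A B C = true) :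
    0 ≤ (dif p n).tot ((3 * m : ℕ) : ℤ) A B C := by
  have hcard := card_ext hU hh
  have key := (dif p n).nonneg (K1 := secSet K h σ0) (K2 := secSet K h σ1)
    (K3 := secSet K h σ2) (IsCap.mono hK (secSet_subset _ _ _))
    (IsCap.mono hK (secSet_subset _ _ _)) (IsCap.mono hK (secSet_subset _ _ _)) ?_ (ext U h) ?_ ?_
  · rw [hcard, hm, secSet_card, secSet_card, secSet_card, hA, hB, hC] at key
    exact key
  · intro u hu v hv hw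
    have hu' := mem_secSet.mp hu
    have hv' := mem_secSet.mp hv
    have hw' := mem_secSet.mp hw
    have := (hK.neg_add_mem three_smul_W5 hu'.1 hv'.1).mp hw'.1
    apply h01
    rw [← hu'.2, ← hv'.2, this]
  · intro ξ hξ
    obtain ⟨u, hu, t, rfl⟩ := mem_ext.mp hξ
    obtain ⟨d, hd⟩ := hc u hu
    have h3 : ∀ (d t σ0 σ1 σ2 : ZMod 3), σ0 ≠ σ1 → σ0 ≠ σ2 → σ1 ≠ σ2 →
      (d + t * σ0) + (d + t * σ1) + (d + t * σ2) = 0 := by decide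
    refine ⟨d + t * σ0, d + t * σ1, d + t * σ2, h3 d t σ0 σ1 σ2 h01 h02 h12, ?_, ?_, ?_⟩ <;>
    · intro x hx
      have hx' := mem_secSet.mp hx
      rw [add_dotProduct, smul_dotProduct, hd x hx'.1, hx'.2, smul_eq_mul]
  · intro ξ hξ
    rw [dif_val, sub_nonneg]
    obtain ⟨hrow, hline⟩ := hL.grid hK hU hm hc hh hξ
    have hline' : ∀ t e : ZMod 3, OK E f (cell K h ξ 0 (e - t * 0)) (cell K h ξ 1 (e - t * 1))
        (cell K h ξ 2 (e - t * 2)) := by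
      intro t e
      have := hline t e
      rw [mul_zero, sub_zero, mul_one]
      exact this
    have hs : ∀ t e : ZMod 3, sec K (ξ + t • h) e = cell K h ξ 0 (e - t * 0) +
        cell K h ξ 1 (e - t * 1) + cell K h ξ 2 (e - t * 2) := by
      intro t e
      rw [sec_line K h ξ t e, mul_zero, sub_zero, mul_one]
    have hgc : ∀ {i j k : ZMod 3}, i + j + k = 0 →
        g (cls (cell K h ξ σ0 i) (cell K h ξ σ1 j) (cell K h ξ σ2 k)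
          (cell K h ξ σ0 (i + 1)) (cell K h ξ σ1 (j + 1)) (cell K h ξ σ2 (k + 1))
          (cell K h ξ σ0 (i + 2)) (cell K h ξ σ1 (j + 2)) (cell K h ξ σ2 (k + 2))) = true := by
      intro i j k hijk
      obtain ⟨t, ht⟩ := cls_line (F := fun c j => cell K h ξ c j)
        (s := fun t e => sec K (ξ + t • h) e) hs h01 h02 h12 hijk
      rw [ht, ← s2_eq]
      exact hg _ (not_mem_of_not_mem_ext hξ t)
    have L : ∀ {i j k : ZMod 3}, i + j + k = 0 →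
        f (sm3 (cell K h ξ σ0 i) (cell K h ξ σ1 j) (cell K h ξ σ2 k))
          (sq3 (cell K h ξ σ0 i) (cell K h ξ σ1 j) (cell K h ξ σ2 k)) = true := by
      intro i j k hijk
      exact (OK_line (F := fun c j => cell K h ξ c j) hline' h01 h02 h12 hijk).2.2.2
    have hG : GridOK E f g (sec (secSet K h σ0) ξ 0) (sec (secSet K h σ0) ξ 1)
        (sec (secSet K h σ0) ξ 2) (sec (secSet K h σ1) ξ 0) (sec (secSet K h σ1) ξ 1)
        (sec (secSet K h σ1) ξ 2) (sec (secSet K h σ2) ξ 0) (sec (secSet K h σ2) ξ 1)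
        (sec (secSet K h σ2) ξ 2) :=
      { ra := hrow σ0
        rb := hrow σ1
        rc := hrow σ2
        l000 := L (by decide)
        l111 := L (by decide)
        l222 := L (by decide)
        l012 := L (by decide)
        l120 := L (by decide)
        l201 := L (by decide)
        l021 := L (by decide)
        l102 := L (by decide)
        l210 := L (by decide)
        g0 := hgc (i := 0) (j := 0) (k := 0) (by decide)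
        g1 := hgc (i := 0) (j := 1) (k := 2) (by decide)
        g2 := hgc (i := 0) (j := 2) (k := 1) (by decide) }
    have hsum : ∀ c : ZMod 3, sec (secSet K h c) ξ 0 + sec (secSet K h c) ξ 1 +
        sec (secSet K h c) ξ 2 = sec K h c := fun c => (sec_row K h ξ c).symm
    exact_mod_cast chkL_sound hchk hG ((hsum σ0).trans hA) ((hsum σ1).trans hB)
      ((hsum σ2).trans hC)

end Pool.Agent.H94.Cap5
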