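import Mathlib
import Pool.Agent.H94.Cap5.Local

/-!
# Lines, planes and solids
-/

set_option autoImplicit false

namespace Pool.Agent.H94.Cap5

open Finset Pool.Agent.H29.EGZ

/-- weights involving one set only -/
def sg (l0 a2 a3 : ℤ) : Wt := ⟨l0, a2, a3, 0, 0, 0, 0, 0⟩

lemma sg_val (l0 a2 a3 : ℤ) (K : Finset W5) (ξ : W5) :
    (sg l0 a2 a3).val K ∅ ∅ ξ = l0 + a2 * s2 K ξ + a3 * s3 K ξ := by
  unfold sg Wt.val
  ring

lemma sg_tot (l0 a2 a3 n A : ℤ) : (sg l0 a2 a3).tot n A 0 0 =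
    l0 * (243 - n) + a2 * (81 * A * A + 162 * A - n * (A * A)) +
      a3 * (81 * A ^ 3 + 162 * A - n * A ^ 3) := by
  unfold sg Wt.tot
  ring

lemma isCap_empty : IsCap (∅ : Finset W5) := by
  intro T hT hc
  rw [Finset.subset_empty.mp hT, Finset.card_empty] at hc
  omega

lemma sg_sum {K U : Finset W5} (hK : IsCap K) (hc : ConstOn U K) (l0 a2 a3 : ℤ) :
    ∑ ξ ∈ univ \ U, (l0 + a2 * s2 K ξ + a3 * s3 K ξ) =
      l0 * (243 - U.card) + a2 * (81 * K.card * K.card + 162 * K.card - U.card * (K.card * K.card)) +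
      a3 * (81 * K.card ^ 3 + 162 * K.card - U.card * K.card ^ 3) := by
  have := (sg l0 a2 a3).sum_diff hK isCap_empty isCap_empty (fun _ _ v hv => by simp at hv) U ?_
  · simp only [sg_val, Finset.card_empty, Nat.cast_zero] at this
    rw [this, sg_tot]
  · intro ξ hξ
    obtain ⟨c, hc'⟩ := hc ξ hξ
    exact ⟨c, -c, 0, by simp, hc', by simp, by simp⟩

lemma single_nonneg {K U : Finset W5} (hK : IsCap K) (hc : ConstOn U K) (l0 a2 a3 : ℤ)
    (hpos : ∀ ξ, ξ ∉ U → 0 ≤ l0 + a2 * s2 K ξ + a3 * s3 K ξ) :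
    0 ≤ l0 * (243 - U.card) + a2 * (81 * K.card * K.card + 162 * K.card - U.card * (K.card * K.card)) +
      a3 * (81 * K.card ^ 3 + 162 * K.card - U.card * K.card ^ 3) := by
  rw [← sg_sum hK hc]
  exact Finset.sum_nonneg fun ξ hξ => hpos ξ (Finset.mem_sdiff.mp hξ).2

lemma single_zero {K U : Finset W5} (hK : IsCap K) (hc : ConstOn U K) (l0 a2 a3 : ℤ)
    (hpos : ∀ ξ, ξ ∉ U → 0 ≤ l0 + a2 * s2 K ξ + a3 * s3 K ξ)
    (h0 : l0 * (243 - U.card) +
      a2 * (81 * K.card * K.card + 162 * K.card - U.card * (K.card * K.card)) +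
      a3 * (81 * K.card ^ 3 + 162 * K.card - U.card * K.card ^ 3) = 0) :
    ∀ ξ, ξ ∉ U → l0 + a2 * s2 K ξ + a3 * s3 K ξ = 0 := by
  intro ξ hξ
  have h1 := sg_sum hK hc l0 a2 a3
  rw [h0] at h1
  exact (Finset.sum_eq_zero_iff_of_nonneg
    (fun ξ hξ => hpos ξ (Finset.mem_sdiff.mp hξ).2)).mp h1 ξ
    (Finset.mem_sdiff.mpr ⟨Finset.mem_univ _, hξ⟩)

/-- bound on the size of a cap from a level predicate -/
lemma card_le_of_lev {m E M : ℕ} {f : ℕ → ℕ → Bool} (hL : Lev m (OK E f))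
    (hf : ∀ s q, f s q = true → s ≤ M) (hm : m < 243) {K U : Finset W5} (hK : IsCap K)
    (hU : IsSub U) (hUm : U.card = m) (hc : ConstOn U K) : K.card ≤ M := by
  obtain ⟨ζ, hζ⟩ : ∃ ζ, ζ ∉ U := by
    by_contra hne
    push Not at hne
    have : U = univ := Finset.eq_univ_iff_forall.mpr hne
    rw [this, Finset.card_univ, card_W5] at hUm
    omega
  have h1 := hL K U hK hU hUm hc ζ hζ
  have h2 := hf _ _ h1.2.2.2
  have h3 := sec_total K ζ
  have h4 : sm3 (sec K ζ 0) (sec K ζ 1) (sec K ζ 2) = K.card := h3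
  rw [h4] at h2
  exact h2

/-- lazy disjunction -/
def orb (a b : Bool) : Bool := Bool.rec (motive := fun _ => Bool) b true a

lemma orb_left {a b : Bool} (h : a = true) : orb a b = true := by subst h; rfl

lemma orb_right {a b : Bool} (h : b = true) : orb a b = true := by subst h; cases a <;> rfl

lemma orb_spec {a b : Bool} (h : orb a b = true) : a = true ∨ b = true := by
  cases a
  · exact Or.inr h
  · exact Or.inl rfl

/-! ### lines -/

def f81 (s _q : ℕ) : Bool := Nat.ble s 2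

lemma chk81 : loop3 3 3 (fun a b c => Nat.ble 9 (cu3 a b c)) = true := by decide +kernel

theorem lev81 : Lev 81 (OK 2 f81) := by
  intro K U hK _hU hm hc ξ _hξ
  have hcard : K.card ≤ 2 := by
    by_contra hlt
    obtain ⟨K', hK', hK'c⟩ := Finset.exists_subset_card_eq (show 3 ≤ K.card by omega)
    have h1 := single_nonneg (IsCap.mono hK hK') (hc.mono hK') (-9) 0 1 (fun ζ _ => by
      have h2 : (9 : ℕ) ≤ s3 K' ζ := by
        rw [s3_eq]
        have h3 := (sec_total K' ζ).trans hK'c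
        have := loop3_spec chk81 (a := sec K' ζ 0) (b := sec K' ζ 1) (c := sec K' ζ 2)
          (by omega) (by omega) (by omega) h3
        rwa [Nat.ble_eq] at this
      have h3 : (9 : ℤ) ≤ (s3 K' ζ : ℤ) := by exact_mod_cast h2
      linarith)
    rw [hK'c, hm] at h1
    norm_num at h1
  have h3 := sec_total K ξ
  refine ⟨by omega, by omega, by omega, ?_⟩
  unfold f81
  rw [Nat.ble_eq]
  show sec K ξ 0 + sec K ξ 1 + sec K ξ 2 ≤ 2
  omega

lemma line_le {K U : Finset W5} (hK : IsCap K) (hU : IsSub U) (hm : U.card = 81)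
    (hc : ConstOn U K) : K.card ≤ 2 :=
  card_le_of_lev lev81 (fun s q h => by unfold f81 at h; rwa [Nat.ble_eq] at h) (by norm_num)
    hK hU hm hc

/-! ### planes -/

def f27 (s _q : ℕ) : Bool := Nat.ble s 4

lemma chk27 : loop3 2 5 (fun a b c => Nat.ble (sq3 a b c) 9) = true := by decide +kernel

theorem lev27 : Lev 27 (OK 2 f27) := by
  intro K U hK hU hm hc ξ hξ
  have hsec : ∀ L : Finset W5, L ⊆ K → ∀ ζ, ζ ∉ U → ∀ j, sec L ζ j ≤ 2 := by
    intro L hL ζ hζ j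
    exact line_le (IsCap.mono hK ((secSet_subset L ζ j).trans hL)) (isSub_ext hU ζ)
      (by rw [card_ext hU hζ, hm]) ((hc.mono hL).secSet ζ j)
  have hcard : K.card ≤ 4 := by
    by_contra hlt
    obtain ⟨K', hK', hK'c⟩ := Finset.exists_subset_card_eq (show 5 ≤ K.card by omega)
    have h1 := single_nonneg (IsCap.mono hK hK') (hc.mono hK') 9 (-1) 0 (fun ζ hζ => by
      have h2 : s2 K' ζ ≤ 9 := by
        rw [s2_eq]
        have h3 := (sec_total K' ζ).trans hK'c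
        have := loop3_spec chk27 (a := sec K' ζ 0) (b := sec K' ζ 1) (c := sec K' ζ 2)
          (hsec K' hK' ζ hζ 0) (hsec K' hK' ζ hζ 1) (hsec K' hK' ζ hζ 2) h3
        rwa [Nat.ble_eq] at this
      have h3 : (s2 K' ζ : ℤ) ≤ 9 := by exact_mod_cast h2
      linarith)
    rw [hK'c, hm] at h1
    norm_num at h1
  have h3 := sec_total K ξ
  refine ⟨hsec K subset_rfl ξ hξ 0, hsec K subset_rfl ξ hξ 1, hsec K subset_rfl ξ hξ 2, ?_⟩
  unfold f27
  rw [Nat.ble_eq]
  show sec K ξ 0 + sec K ξ 1 + sec K ξ 2 ≤ 4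
  omega

lemma plane_le {K U : Finset W5} (hK : IsCap K) (hU : IsSub U) (hm : U.card = 27)
    (hc : ConstOn U K) : K.card ≤ 4 :=
  card_le_of_lev lev27 (fun s q h => by unfold f27 at h; rwa [Nat.ble_eq] at h) (by norm_num)
    hK hU hm hc

/-! ### solids -/

def f9 (s q : ℕ) : Bool :=
  orb (Nat.ble s 8) (andb (Nat.beq s 9) (orb (Nat.beq q 33) (Nat.beq q 27)))

lemma f9_le {s q : ℕ} (h : f9 s q = true) : s ≤ 9 := by
  unfold f9 at h
  rcases orb_spec h with h | h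
  · rw [Nat.ble_eq] at h; omega
  · have := Nat.eq_of_beq_eq_true (andb_spec h).1
    omega

lemma chk9 : loop3 4 10 (fun a b c => Nat.ble (sq3 a b c) 36) = true := by decide +kernel

lemma chk9' : loop3 4 9 (fun a b c => Nat.ble 324 (Nat.add (Nat.mul 3 (sq3 a b c)) (cu3 a b c))) =
    true := by decide +kernel

lemma chk9'' : loop3 4 9 (fun a b c =>
    imp (Nat.ble (Nat.add (Nat.mul 3 (sq3 a b c)) (cu3 a b c)) 324) (f9 (sm3 a b c) (sq3 a b c))) =
    true := by decide +kernel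

theorem lev9 : Lev 9 (OK 4 f9) := by
  intro K U hK hU hm hc ξ hξ
  have hsec : ∀ L : Finset W5, L ⊆ K → ∀ ζ, ζ ∉ U → ∀ j, sec L ζ j ≤ 4 := by
    intro L hL ζ hζ j
    exact plane_le (IsCap.mono hK ((secSet_subset L ζ j).trans hL)) (isSub_ext hU ζ)
      (by rw [card_ext hU hζ, hm]) ((hc.mono hL).secSet ζ j)
  have hcard : K.card ≤ 9 := by
    by_contra hlt
    obtain ⟨K', hK', hK'c⟩ := Finset.exists_subset_card_eq (show 10 ≤ K.card by omega)
    have h1 := single_nonneg (IsCap.mono hK hK') (hc.mono hK') 36 (-1) 0 (fun ζ hζ => by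
      have h2 : s2 K' ζ ≤ 36 := by
        rw [s2_eq]
        have h3 := (sec_total K' ζ).trans hK'c
        have := loop3_spec chk9 (a := sec K' ζ 0) (b := sec K' ζ 1) (c := sec K' ζ 2)
          (hsec K' hK' ζ hζ 0) (hsec K' hK' ζ hζ 1) (hsec K' hK' ζ hζ 2) h3
        rwa [Nat.ble_eq] at this
      have h3 : (s2 K' ζ : ℤ) ≤ 36 := by exact_mod_cast h2
      linarith)
    rw [hK'c, hm] at h1
    norm_num at h1
  have h3 := sec_total K ξ
  refine ⟨hsec K subset_rfl ξ hξ 0, hsec K subset_rfl ξ hξ 1, hsec K subset_rfl ξ hξ 2, ?_⟩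
  by_cases h9 : K.card = 9
  · have h1 := single_zero hK hc (-324) 3 1 (fun ζ hζ => by
      have h2 : 324 ≤ 3 * s2 K ζ + s3 K ζ := by
        rw [s2_eq, s3_eq]
        have h3 := (sec_total K ζ).trans h9
        have := loop3_spec chk9' (a := sec K ζ 0) (b := sec K ζ 1) (c := sec K ζ 2)
          (hsec K subset_rfl ζ hζ 0) (hsec K subset_rfl ζ hζ 1) (hsec K subset_rfl ζ hζ 2) h3
        rwa [Nat.ble_eq] at this
      have h3 : (324 : ℤ) ≤ 3 * (s2 K ζ : ℤ) + (s3 K ζ : ℤ) := by exact_mod_cast h2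
      linarith) (by rw [h9, hm]; norm_num) ξ hξ
    have h2 : 3 * s2 K ξ + s3 K ξ ≤ 324 := by
      have : (3 * (s2 K ξ : ℤ) + (s3 K ξ : ℤ)) ≤ 324 := by linarith
      exact_mod_cast this
    rw [s2_eq, s3_eq] at h2
    refine imp_spec (loop3_spec chk9'' (a := sec K ξ 0) (b := sec K ξ 1) (c := sec K ξ 2)
      (hsec K subset_rfl ξ hξ 0) (hsec K subset_rfl ξ hξ 1) (hsec K subset_rfl ξ hξ 2)
      (h3.trans h9)) ?_
    rw [Nat.ble_eq]
    exact h2
  · unfold f9
    refine orb_left ?_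
    rw [Nat.ble_eq]
    show sec K ξ 0 + sec K ξ 1 + sec K ξ 2 ≤ 8
    omega

lemma solid_le {K U : Finset W5} (hK : IsCap K) (hU : IsSub U) (hm : U.card = 9)
    (hc : ConstOn U K) : K.card ≤ 9 :=
  card_le_of_lev lev9 (fun _ _ h => f9_le h) (by norm_num) hK hU hm hc

end Pool.Agent.H94.Cap5
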