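import Mathlib
import Pool.Agent.H94.Cap5.Levels

/-!
# Certificates over full `3 × 3` grids
-/

set_option autoImplicit false

namespace Pool.Agent.H94.Cap5

open Finset Pool.Agent.H29.EGZ

/-- coefficient functions of a full certificate; first argument: sum of squares of the type,
second argument: size of the section -/
structure CF where
  c0 : ℕ → ℕ
  c2 : ℕ → ℕ → ℕ
  c3 : ℕ → ℕ → ℕ
  cm : ℕ → ℕ

/-- the value on one parallel class, `q` = sum of squares of the row sums -/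
def CF.phi (p : CF) (q a0 a1 a2 b0 b1 b2 c0 c1 c2 : ℕ) : ℕ :=
  Nat.add (Nat.add (Nat.add (Nat.add (p.c0 q)
    (Nat.add (Nat.mul (p.c2 q (sm3 a0 a1 a2)) (sq3 a0 a1 a2))
      (Nat.mul (p.c3 q (sm3 a0 a1 a2)) (cu3 a0 a1 a2))))
    (Nat.add (Nat.mul (p.c2 q (sm3 b0 b1 b2)) (sq3 b0 b1 b2))
      (Nat.mul (p.c3 q (sm3 b0 b1 b2)) (cu3 b0 b1 b2))))
    (Nat.add (Nat.mul (p.c2 q (sm3 c0 c1 c2)) (sq3 c0 c1 c2))
      (Nat.mul (p.c3 q (sm3 c0 c1 c2)) (cu3 c0 c1 c2))))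
    (Nat.mul (p.cm q) (mix9 a0 a1 a2 b0 b1 b2 c0 c1 c2))

/-- value on one class, with the type computed -/
def CF.ph (p : CF) (a0 a1 a2 b0 b1 b2 c0 c1 c2 : ℕ) : ℕ :=
  p.phi (cls a0 a1 a2 b0 b1 b2 c0 c1 c2) a0 a1 a2 b0 b1 b2 c0 c1 c2

/-- value on the four classes of a grid -/
def CF.tot4 (p : CF) (x00 x01 x02 x10 x11 x12 x20 x21 x22 : ℕ) : ℕ :=
  Nat.add (Nat.add (Nat.add (p.ph x00 x01 x02 x10 x11 x12 x20 x21 x22)
    (p.ph x00 x10 x20 x01 x11 x21 x02 x12 x22))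
    (p.ph x00 x12 x21 x01 x10 x22 x02 x11 x20))
    (p.ph x00 x11 x22 x01 x12 x20 x02 x10 x21)

/-- the check over all admissible grids of total `S` -/
def chkF (E M S : ℕ) (f : ℕ → ℕ → Bool) (g : ℕ → Bool) (p n : CF) : Bool :=
  loop3 M S fun A B C => imp (g (sq3 A B C)) <|
  loop3 E A fun a0 a1 a2 => imp (f (sm3 a0 a1 a2) (sq3 a0 a1 a2)) <|
  loop3 E B fun b0 b1 b2 => imp (f (sm3 b0 b1 b2) (sq3 b0 b1 b2)) <|
  loop3 E C fun c0 c1 c2 => imp (f (sm3 c0 c1 c2) (sq3 c0 c1 c2)) <|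
  imp (lines f a0 a1 a2 b0 b1 b2 c0 c1 c2) <|
  imp (g (cls a0 b0 c0 a1 b1 c1 a2 b2 c2)) <|
  imp (g (cls a0 b1 c2 a1 b2 c0 a2 b0 c1)) <|
  imp (g (cls a0 b2 c1 a1 b0 c2 a2 b1 c0)) <|
  Nat.ble (n.tot4 a0 a1 a2 b0 b1 b2 c0 c1 c2) (p.tot4 a0 a1 a2 b0 b1 b2 c0 c1 c2)

theorem chkF_sound {E M S : ℕ} {f : ℕ → ℕ → Bool} {g : ℕ → Bool} {p n : CF}
    (h : chkF E M S f g p n = true) {a0 a1 a2 b0 b1 b2 c0 c1 c2 : ℕ}
    (hG : GridOK E f g a0 a1 a2 b0 b1 b2 c0 c1 c2)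
    (hg : g (cls a0 a1 a2 b0 b1 b2 c0 c1 c2) = true)
    (hA : a0 + a1 + a2 ≤ M) (hB : b0 + b1 + b2 ≤ M) (hC : c0 + c1 + c2 ≤ M)
    (hS : a0 + a1 + a2 + (b0 + b1 + b2) + (c0 + c1 + c2) = S) :
    n.tot4 a0 a1 a2 b0 b1 b2 c0 c1 c2 ≤ p.tot4 a0 a1 a2 b0 b1 b2 c0 c1 c2 := by
  unfold chkF at h
  have h0 := imp_spec (loop3_spec h hA hB hC hS) hg
  have h1 := imp_spec (loop3_spec h0 hG.ra.1 hG.ra.2.1 hG.ra.2.2.1 rfl) hG.ra.2.2.2
  have h2 := imp_spec (loop3_spec h1 hG.rb.1 hG.rb.2.1 hG.rb.2.2.1 rfl) hG.rb.2.2.2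
  have h3 := imp_spec (loop3_spec h2 hG.rc.1 hG.rc.2.1 hG.rc.2.2.1 rfl) hG.rc.2.2.2
  have h4 := imp_spec h3 (by
    unfold lines
    exact andb_intro hG.l000 <| andb_intro hG.l111 <| andb_intro hG.l222 <|
      andb_intro hG.l012 <| andb_intro hG.l120 <| andb_intro hG.l201 <|
      andb_intro hG.l021 <| andb_intro hG.l102 hG.l210)
  have h5 := imp_spec (imp_spec (imp_spec h4 hG.g0) hG.g1) hG.g2
  rw [Nat.ble_eq] at h5
  exact h5

/-- the grid conditions for the cells -/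
theorem gridOK_cells {m E : ℕ} {f : ℕ → ℕ → Bool} {g : ℕ → Bool}
    (hL : Lev (3 * m) (OK E f)) {K U : Finset W5} (hK : IsCap K) (hU : IsSub U)
    (hm : U.card = m) (hc : ConstOn U K) (hg : ∀ ζ, ζ ∉ U → g (s2 K ζ) = true)
    {h ξ : W5} (hh : h ∉ U) (hξ : ξ ∉ ext U h) :
    GridOK E f g (cell K h ξ 0 0) (cell K h ξ 0 1) (cell K h ξ 0 2) (cell K h ξ 1 0)
      (cell K h ξ 1 1) (cell K h ξ 1 2) (cell K h ξ 2 0) (cell K h ξ 2 1) (cell K h ξ 2 2) := by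
  have h01 : (0 : ZMod 3) ≠ 1 := by decide
  have h02 : (0 : ZMod 3) ≠ 2 := by decide
  have h12 : (1 : ZMod 3) ≠ 2 := by decide
  obtain ⟨hrow, hline⟩ := hL.grid hK hU hm hc hh hξ
  have hline' : ∀ t e : ZMod 3, OK E f (cell K h ξ 0 (e - t * 0)) (cell K h ξ 1 (e - t * 1))
      (cell K h ξ 2 (e - t * 2)) := by
    intro t e
    have := hline t e
    rw [mul_zero, sub_zero, mul_one]
    exact this
  have hs : ∀ t e : ZMod 3, sec K (ξ + t • h) e = cell K h ξ 0 (e - t * 0) +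
      cell K h ξ 1 (e - t * 1) + cell K h ξ 2 (e - t * 2) := by
    intro t e
    rw [sec_line K h ξ t e, mul_zero, sub_zero, mul_one]
  have hgc : ∀ {i j k : ZMod 3}, i + j + k = 0 →
      g (cls (cell K h ξ 0 i) (cell K h ξ 1 j) (cell K h ξ 2 k)
        (cell K h ξ 0 (i + 1)) (cell K h ξ 1 (j + 1)) (cell K h ξ 2 (k + 1))
        (cell K h ξ 0 (i + 2)) (cell K h ξ 1 (j + 2)) (cell K h ξ 2 (k + 2))) = true := by
    intro i j k hijk
    obtain ⟨t, ht⟩ := cls_line (F := fun c j => cell K h ξ c j)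
      (s := fun t e => sec K (ξ + t • h) e) hs h01 h02 h12 hijk
    rw [ht, ← s2_eq]
    exact hg _ (not_mem_of_not_mem_ext hξ t)
  have L : ∀ {i j k : ZMod 3}, i + j + k = 0 →
      f (sm3 (cell K h ξ 0 i) (cell K h ξ 1 j) (cell K h ξ 2 k))
        (sq3 (cell K h ξ 0 i) (cell K h ξ 1 j) (cell K h ξ 2 k)) = true := by
    intro i j k hijk
    exact (OK_line (F := fun c j => cell K h ξ c j) hline' h01 h02 h12 hijk).2.2.2
  exact
    { ra := hrow 0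
      rb := hrow 1
      rc := hrow 2
      l000 := L (by decide)
      l111 := L (by decide)
      l222 := L (by decide)
      l012 := L (by decide)
      l120 := L (by decide)
      l201 := L (by decide)
      l021 := L (by decide)
      l102 := L (by decide)
      l210 := L (by decide)
      g0 := hgc (i := 0) (j := 0) (k := 0) (by decide)
      g1 := hgc (i := 0) (j := 1) (k := 2) (by decide)
      g2 := hgc (i := 0) (j := 2) (k := 1) (by decide) }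

/-- weights of the certificate for the direction `h` -/
def wtc (p n : CF) (A0 A1 A2 : ℕ) : Wt where
  l0 := (p.c0 (sq3 A0 A1 A2) : ℤ) - n.c0 (sq3 A0 A1 A2)
  a2 := (p.c2 (sq3 A0 A1 A2) A0 : ℤ) - n.c2 (sq3 A0 A1 A2) A0
  a3 := (p.c3 (sq3 A0 A1 A2) A0 : ℤ) - n.c3 (sq3 A0 A1 A2) A0
  b2 := (p.c2 (sq3 A0 A1 A2) A1 : ℤ) - n.c2 (sq3 A0 A1 A2) A1
  b3 := (p.c3 (sq3 A0 A1 A2) A1 : ℤ) - n.c3 (sq3 A0 A1 A2) A1
  c2 := (p.c2 (sq3 A0 A1 A2) A2 : ℤ) - n.c2 (sq3 A0 A1 A2) A2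
  c3 := (p.c3 (sq3 A0 A1 A2) A2 : ℤ) - n.c3 (sq3 A0 A1 A2) A2
  m := (p.cm (sq3 A0 A1 A2) : ℤ) - n.cm (sq3 A0 A1 A2)

/-- value of the certificate at an ordered pair of functionals -/
def Phi (p n : CF) (K : Finset W5) (h ξ : W5) : ℤ :=
  (wtc p n (sec K h 0) (sec K h 1) (sec K h 2)).val (secSet K h 0) (secSet K h 1) (secSet K h 2) ξ

lemma Phi_eq (p n : CF) (K : Finset W5) (h ξ : W5) : Phi p n K h ξ =
    (p.ph (cell K h ξ 0 0) (cell K h ξ 0 1) (cell K h ξ 0 2) (cell K h ξ 1 0)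
      (cell K h ξ 1 1) (cell K h ξ 1 2) (cell K h ξ 2 0) (cell K h ξ 2 1) (cell K h ξ 2 2) : ℤ) -
    (n.ph (cell K h ξ 0 0) (cell K h ξ 0 1) (cell K h ξ 0 2) (cell K h ξ 1 0)
      (cell K h ξ 1 1) (cell K h ξ 1 2) (cell K h ξ 2 0) (cell K h ξ 2 1) (cell K h ξ 2 2) : ℤ) := by
  have r : ∀ c : ZMod 3, sm3 (cell K h ξ c 0) (cell K h ξ c 1) (cell K h ξ c 2) = sec K h c :=
    fun c => (sec_row K h ξ c).symm
  unfold Phi Wt.val wtc CF.ph CF.phi cls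
  rw [r, r, r, s2_eq, s2_eq, s2_eq, s3_eq, s3_eq, s3_eq, mx_eq]
  simp only [Nat.add_eq, Nat.mul_eq]
  push_cast
  unfold cell
  ring

/-- the sum over the second functional -/
lemma sum_Phi {m : ℕ} {p n : CF} {K U : Finset W5} (hK : IsCap K) (hU : IsSub U)
    (hm : U.card = m) (hc : ConstOn U K) {h : W5} (hh : h ∉ U) :
    ∑ ξ ∈ univ \ ext U h, Phi p n K h ξ =
      (wtc p n (sec K h 0) (sec K h 1) (sec K h 2)).tot ((3 * m : ℕ) : ℤ)
        (sec K h 0) (sec K h 1) (sec K h 2) := by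
  unfold Phi
  rw [Wt.sum_diff]
  · rw [card_ext hU hh, hm]; rfl
  · exact IsCap.mono hK (secSet_subset _ _ _)
  · exact IsCap.mono hK (secSet_subset _ _ _)
  · exact IsCap.mono hK (secSet_subset _ _ _)
  · intro u hu v hv hw
    have hu' := mem_secSet.mp hu
    have hv' := mem_secSet.mp hv
    have hw' := mem_secSet.mp hw
    have := (hK.neg_add_mem three_smul_W5 hu'.1 hv'.1).mp hw'.1
    have h01 : (0 : ZMod 3) ≠ 1 := by decide
    apply h01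
    rw [← hu'.2, ← hv'.2, this]
  · intro ξ hξ
    obtain ⟨u, hu, t, rfl⟩ := mem_ext.mp hξ
    obtain ⟨d, hd⟩ := hc u hu
    have h3 : ∀ (d t : ZMod 3), (d + t * 0) + (d + t * 1) + (d + t * 2) = 0 := by decide
    refine ⟨d + t * 0, d + t * 1, d + t * 2, h3 d t, ?_, ?_, ?_⟩ <;>
    · intro x hx
      have hx' := mem_secSet.mp hx
      rw [add_dotProduct, smul_dotProduct, hd x hx'.1, hx'.2, smul_eq_mul]

/-- the ordered pairs independent modulo `U` -/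
def prs (U : Finset W5) : Finset (W5 × W5) :=
  ((univ : Finset W5) ×ˢ (univ : Finset W5)).filter (fun q => q.1 ∉ U ∧ q.2 ∉ ext U q.1)

lemma mem_prs (U : Finset W5) (q : W5 × W5) : q ∈ prs U ↔ (q.1 ∉ U ∧ q.2 ∉ ext U q.1) := by
  unfold prs
  rw [Finset.mem_filter, Finset.mem_product]
  simp only [Finset.mem_univ, true_and]

lemma sum_prs (U : Finset W5) (F : W5 → W5 → ℤ) :
    ∑ q ∈ prs U, F q.1 q.2 = ∑ h ∈ univ \ U, ∑ ξ ∈ univ \ ext U h, F h ξ := by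
  have h1 : ∀ h : W5, ∑ ξ ∈ univ \ ext U h, F h ξ = ∑ ξ : W5, if ξ ∉ ext U h then F h ξ else 0 := by
    intro h
    rw [← Finset.sum_filter]
    congr 1
    ext ξ; simp
  have h2 : ∑ h ∈ univ \ U, ∑ ξ ∈ univ \ ext U h, F h ξ =
      ∑ h : W5, if h ∉ U then ∑ ξ ∈ univ \ ext U h, F h ξ else 0 := by
    rw [← Finset.sum_filter]
    congr 1
    ext ξ; simp
  rw [h2]
  unfold prs
  rw [Finset.sum_filter, Finset.sum_product]
  refine Finset.sum_congr rfl fun h _ => ?_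
  by_cases hh : h ∉ U
  · rw [if_pos hh, h1]
    refine Finset.sum_congr rfl fun ξ _ => ?_
    simp only [hh, not_false_eq_true, true_and]
  · rw [if_neg hh]
    refine Finset.sum_eq_zero fun ξ _ => ?_
    rw [if_neg]
    exact fun hx => hh hx.1

attribute [irreducible] prs

lemma prs_fst {U : Finset W5} {q : W5 × W5} (h : q ∈ prs U) : q.1 ∉ U := ((mem_prs U q).mp h).1

lemma prs_snd {U : Finset W5} {q : W5 × W5} (h : q ∈ prs U) : q.2 ∉ ext U q.1 := ((mem_prs U q).mp h).2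

lemma prs_swap {U : Finset W5} (hU : IsSub U) {q : W5 × W5} (hq : q ∈ prs U) (t : ZMod 3) :
    (q.2 + t • q.1, q.1) ∈ prs U := by
  obtain ⟨h1, h2⟩ := (mem_prs _ _).mp hq
  exact (mem_prs _ _).mpr ⟨not_mem_of_not_mem_ext h2 t, not_mem_ext_swap hU h1 h2 t⟩

lemma prs_swap' {U : Finset W5} (hU : IsSub U) {q : W5 × W5} (hq : q ∈ prs U) (t : ZMod 3) :
    (q.2, q.1 - t • q.2) ∈ prs U := by
  obtain ⟨h1, h2⟩ := (mem_prs _ _).mp hq
  have h0 := prs_swap hU hq 0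
  rw [zero_smul, add_zero] at h0
  obtain ⟨h3, h4⟩ := (mem_prs _ _).mp h0
  refine (mem_prs _ _).mpr ⟨h3, ?_⟩
  simp only at h3 h4 ⊢
  intro hm
  apply h4
  have hs := isSub_ext hU q.2
  have := hs.add _ hm _ (hs.smul (self_mem_ext hU q.2) t)
  rwa [sub_add_cancel] at this

lemma sum_prs_swap {U : Finset W5} (hU : IsSub U) (F : W5 → W5 → ℤ) (t : ZMod 3) :
    ∑ q ∈ prs U, F (q.2 + t • q.1) q.1 = ∑ q ∈ prs U, F q.1 q.2 := by
  refine Finset.sum_nbij' (fun q => (q.2 + t • q.1, q.1)) (fun q => (q.2, q.1 - t • q.2))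
    (fun q hq => prs_swap hU hq t) (fun q hq => prs_swap' hU hq t) ?_ ?_ ?_
  · intro q _
    refine Prod.ext rfl ?_
    simp
  · intro q _
    refine Prod.ext ?_ rfl
    simp
  · intro q _
    rfl

lemma cell_swap (K : Finset W5) (h ξ : W5) (t e c : ZMod 3) :
    cell K (ξ + t • h) h e c = cell K h ξ c (e - t * c) := line_sec K h ξ t e c

/-- **Full certificate theorem.** -/
theorem full_nonneg {m E M S : ℕ} {f : ℕ → ℕ → Bool} {g : ℕ → Bool} {p n : CF}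
    (hL : Lev (3 * m) (OK E f)) (hfM : ∀ s q, f s q = true → s ≤ M) (hm243 : 3 * m < 243)
    {K U : Finset W5} (hK : IsCap K) (hU : IsSub U)
    (hm : U.card = m) (hc : ConstOn U K) (hS : K.card = S) (hg : ∀ ζ, ζ ∉ U → g (s2 K ζ) = true)
    (hchk : chkF E M S f g p n = true) :
    0 ≤ ∑ h ∈ univ \ U, (wtc p n (sec K h 0) (sec K h 1) (sec K h 2)).tot ((3 * m : ℕ) : ℤ)
        (sec K h 0) (sec K h 1) (sec K h 2) := by
  have h1 : ∑ h ∈ univ \ U, (wtc p n (sec K h 0) (sec K h 1) (sec K h 2)).tot ((3 * m : ℕ) : ℤ)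
        (sec K h 0) (sec K h 1) (sec K h 2) = ∑ q ∈ prs U, Phi p n K q.1 q.2 := by
    rw [sum_prs]
    refine Finset.sum_congr rfl fun h hh => ?_
    rw [sum_Phi hK hU hm hc (Finset.mem_sdiff.mp hh).2]
  have h2 : 0 ≤ ∑ q ∈ prs U, (Phi p n K q.1 q.2 + Phi p n K (q.2 + (0 : ZMod 3) • q.1) q.1 +
      Phi p n K (q.2 + (1 : ZMod 3) • q.1) q.1 + Phi p n K (q.2 + (2 : ZMod 3) • q.1) q.1) := by
    refine Finset.sum_nonneg fun q hq => ?_
    obtain ⟨hh, hξ⟩ := (mem_prs _ _).mp hq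
    have hG := gridOK_cells hL hK hU hm hc hg hh hξ
    have hrow : ∀ c : ZMod 3, cell K q.1 q.2 c 0 + cell K q.1 q.2 c 1 + cell K q.1 q.2 c 2 =
        sec K q.1 c := fun c => (sec_row K q.1 q.2 c).symm
    have hle : ∀ c : ZMod 3, sec K q.1 c ≤ M := by
      intro c
      exact card_le_of_lev hL hfM hm243 (IsCap.mono hK (secSet_subset K q.1 c)) (isSub_ext hU q.1)
        (by rw [card_ext hU hh, hm]) (hc.secSet q.1 c)
    have key := chkF_sound hchk hG (by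
      have e1 : cls (cell K q.1 q.2 0 0) (cell K q.1 q.2 0 1) (cell K q.1 q.2 0 2)
        (cell K q.1 q.2 1 0) (cell K q.1 q.2 1 1) (cell K q.1 q.2 1 2)
        (cell K q.1 q.2 2 0) (cell K q.1 q.2 2 1) (cell K q.1 q.2 2 2) =
          sq3 (sec K q.1 0) (sec K q.1 1) (sec K q.1 2) := by
        rw [← hrow 0, ← hrow 1, ← hrow 2]; rfl
      rw [e1, ← s2_eq]
      exact hg _ hh) (by rw [hrow]; exact hle 0) (by rw [hrow]; exact hle 1)
      (by rw [hrow]; exact hle 2) (by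
        rw [hrow, hrow, hrow, ← hS]; exact sec_total K q.1)
    rw [Phi_eq, Phi_eq, Phi_eq, Phi_eq]
    simp only [cell_swap]
    rw [show (0 : ZMod 3) - 0 * 0 = 0 by decide, show (0 : ZMod 3) - 0 * 1 = 0 by decide,
      show (0 : ZMod 3) - 0 * 2 = 0 by decide, show (1 : ZMod 3) - 0 * 0 = 1 by decide,
      show (1 : ZMod 3) - 0 * 1 = 1 by decide, show (1 : ZMod 3) - 0 * 2 = 1 by decide,
      show (2 : ZMod 3) - 0 * 0 = 2 by decide, show (2 : ZMod 3) - 0 * 1 = 2 by decide,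
      show (2 : ZMod 3) - 0 * 2 = 2 by decide, show (0 : ZMod 3) - 1 * 0 = 0 by decide,
      show (0 : ZMod 3) - 1 * 1 = 2 by decide, show (0 : ZMod 3) - 1 * 2 = 1 by decide,
      show (1 : ZMod 3) - 1 * 0 = 1 by decide, show (1 : ZMod 3) - 1 * 1 = 0 by decide,
      show (1 : ZMod 3) - 1 * 2 = 2 by decide, show (2 : ZMod 3) - 1 * 0 = 2 by decide,
      show (2 : ZMod 3) - 1 * 1 = 1 by decide, show (2 : ZMod 3) - 1 * 2 = 0 by decide,
      show (0 : ZMod 3) - 2 * 0 = 0 by decide, show (0 : ZMod 3) - 2 * 1 = 1 by decide,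
      show (0 : ZMod 3) - 2 * 2 = 2 by decide, show (1 : ZMod 3) - 2 * 0 = 1 by decide,
      show (1 : ZMod 3) - 2 * 1 = 2 by decide, show (1 : ZMod 3) - 2 * 2 = 0 by decide,
      show (2 : ZMod 3) - 2 * 0 = 2 by decide, show (2 : ZMod 3) - 2 * 1 = 0 by decide,
      show (2 : ZMod 3) - 2 * 2 = 1 by decide]
    have key' : (n.tot4 (cell K q.1 q.2 0 0) (cell K q.1 q.2 0 1) (cell K q.1 q.2 0 2)
        (cell K q.1 q.2 1 0) (cell K q.1 q.2 1 1) (cell K q.1 q.2 1 2)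
        (cell K q.1 q.2 2 0) (cell K q.1 q.2 2 1) (cell K q.1 q.2 2 2) : ℤ) ≤
        (p.tot4 (cell K q.1 q.2 0 0) (cell K q.1 q.2 0 1) (cell K q.1 q.2 0 2)
        (cell K q.1 q.2 1 0) (cell K q.1 q.2 1 1) (cell K q.1 q.2 1 2)
        (cell K q.1 q.2 2 0) (cell K q.1 q.2 2 1) (cell K q.1 q.2 2 2) : ℤ) := by
      exact_mod_cast key
    unfold CF.tot4 at key'
    simp only [Nat.add_eq] at key'
    push_cast at key'
    linarith
  rw [Finset.sum_add_distrib, Finset.sum_add_distrib, Finset.sum_add_distrib,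
    sum_prs_swap hU (fun h ξ => Phi p n K h ξ) 0, sum_prs_swap hU (fun h ξ => Phi p n K h ξ) 1,
    sum_prs_swap hU (fun h ξ => Phi p n K h ξ) 2] at h2
  rw [h1]
  linarith

end Pool.Agent.H94.Cap5
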