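import Mathlib
import Pool.Agent.H94.Cap5.Full

/-!
# Certificates for caps in four-dimensional flats
-/

set_option autoImplicit false

namespace Pool.Agent.H94.Cap5

open Finset Pool.Agent.H29.EGZ

/-- the trivial condition -/
def gT (_q : ℕ) : Bool := true

def p399 : WN := ⟨0, 0, 0, 0, 0, 0, 0, 541⟩

def n399 : WN := ⟨81, 0, 0, 81, 81, 81, 81, 0⟩

lemma chk399 : chkL 4 f9 gT p399 n399 3 9 9 = true := by decide +kernel

lemma tot399 : (dif p399 n399).tot ((3 * 3 : ℕ) : ℤ) (3 : ℕ) (9 : ℕ) (9 : ℕ) < 0 := by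
  norm_num [dif, Wt.tot, p399, n399]

def p389 : WN := ⟨0, 3273, 0, 0, 0, 0, 0, 1955⟩

def n389 : WN := ⟨432, 0, 1163, 432, 72, 432, 432, 0⟩

lemma chk389 : chkL 4 f9 gT p389 n389 3 8 9 = true := by decide +kernel

lemma tot389 : (dif p389 n389).tot ((3 * 3 : ℕ) : ℤ) (3 : ℕ) (8 : ℕ) (9 : ℕ) < 0 := by
  norm_num [dif, Wt.tot, p389, n389]

def p479 : WN := ⟨0, 0, 3383, 0, 0, 0, 0, 17046⟩

def n479 : WN := ⟨4056, 20298, 0, 4056, 1352, 4056, 4056, 0⟩

lemma chk479 : chkL 4 f9 gT p479 n479 4 7 9 = true := by decide +kernel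

lemma tot479 : (dif p479 n479).tot ((3 * 3 : ℕ) : ℤ) (4 : ℕ) (7 : ℕ) (9 : ℕ) < 0 := by
  norm_num [dif, Wt.tot, p479, n479]

def p488 : WN := ⟨0, 102, 22, 75, 11, 27, 3, 72⟩

def n488 : WN := ⟨11840, 0, 0, 0, 0, 0, 0, 0⟩

lemma chk488 : chkL 4 f9 gT p488 n488 4 8 8 = true := by decide +kernel

lemma tot488 : (dif p488 n488).tot ((3 * 3 : ℕ) : ℤ) (4 : ℕ) (8 : ℕ) (8 : ℕ) < 0 := by
  norm_num [dif, Wt.tot, p488, n488]

def p569 : WN := ⟨0, 1962, 1308, 2943, 981, 0, 0, 3924⟩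

def n569 : WN := ⟨4866, 0, 0, 0, 0, 4866, 1622, 0⟩

lemma chk569 : chkL 4 f9 gT p569 n569 5 6 9 = true := by decide +kernel

lemma tot569 : (dif p569 n569).tot ((3 * 3 : ℕ) : ℤ) (5 : ℕ) (6 : ℕ) (9 : ℕ) < 0 := by
  norm_num [dif, Wt.tot, p569, n569]

def p578 : WN := ⟨0, 0, 409, 0, 0, 0, 215, 0⟩

def n578 : WN := ⟨1518, 1227, 0, 0, 0, 1518, 0, 0⟩

lemma chk578 : chkL 4 f9 gT p578 n578 5 7 8 = true := by decide +kernel

lemma tot578 : (dif p578 n578).tot ((3 * 3 : ℕ) : ℤ) (5 : ℕ) (7 : ℕ) (8 : ℕ) < 0 := by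
  norm_num [dif, Wt.tot, p578, n578]

def p677 : WN := ⟨0, 288, 16, 0, 0, 0, 8454, 216⟩

def n677 : WN := ⟨12501, 0, 0, 12501, 4215, 12501, 0, 0⟩

lemma chk677 : chkL 4 f9 gT p677 n677 6 7 7 = true := by decide +kernel

lemma tot677 : (dif p677 n677).tot ((3 * 3 : ℕ) : ℤ) (6 : ℕ) (7 : ℕ) (7 : ℕ) < 0 := by
  norm_num [dif, Wt.tot, p677, n677]

def p379 : WN := ⟨0, 0, 0, 1962, 654, 0, 0, 1962⟩

def n379 : WN := ⟨1401, 0, 0, 0, 0, 1401, 794, 0⟩

lemma chk379 : chkL 4 f9 gT p379 n379 3 7 9 = true := by decide +kernel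

lemma tot379 : (dif p379 n379).tot ((3 * 3 : ℕ) : ℤ) (3 : ℕ) (7 : ℕ) (9 : ℕ) < 0 := by
  norm_num [dif, Wt.tot, p379, n379]

def p469 : WN := ⟨0, 4905, 1635, 8829, 2943, 0, 0, 9810⟩

def n469 : WN := ⟨8538, 0, 0, 0, 0, 8538, 3500, 0⟩

lemma chk469 : chkL 4 f9 gT p469 n469 4 6 9 = true := by decide +kernel

lemma tot469 : (dif p469 n469).tot ((3 * 3 : ℕ) : ℤ) (4 : ℕ) (6 : ℕ) (9 : ℕ) < 0 := by
  norm_num [dif, Wt.tot, p469, n469]

def p559 : WN := ⟨0, 654, 436, 327, 218, 0, 0, 981⟩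

def n559 : WN := ⟨759, 0, 0, 0, 0, 759, 362, 0⟩

lemma chk559 : chkL 4 f9 gT p559 n559 5 5 9 = true := by decide +kernel

lemma tot559 : (dif p559 n559).tot ((3 * 3 : ℕ) : ℤ) (5 : ℕ) (5 : ℕ) (9 : ℕ) < 0 := by
  norm_num [dif, Wt.tot, p559, n559]


/-- admissible types of 19-caps before the full certificate -/
def g19 (q : ℕ) : Bool :=
  orb (Nat.beq q 163) <| orb (Nat.beq q 149) <| orb (Nat.beq q 137) <| orb (Nat.beq q 129) <|
  orb (Nat.beq q 125) <| orb (Nat.beq q 123) (Nat.beq q 121)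

def P19 : CF where
  c0 := fun q => cond (Nat.beq q 163) (746988647832) (cond (Nat.beq q 137) (115450295148) (cond (Nat.beq q 125) (275998791224) (cond (Nat.beq q 123) (150276265568) (0))))
  c2 := fun q s => cond (Nat.beq q 149) (cond (Nat.beq s 2) (954108360831) (0)) (cond (Nat.beq q 129) (cond (Nat.beq s 4) (738508614) (cond (Nat.beq s 7) (6945480216) (0))) (0))
  c3 := fun q s => cond (Nat.beq q 129) (cond (Nat.beq s 4) (558802298) (0)) (0)
  cm := fun q => cond (Nat.beq q 129) (5940443628) (cond (Nat.beq q 121) (1477339704) (0))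

def N19 : CF where
  c0 := fun q => cond (Nat.beq q 129) (478942932392) (cond (Nat.beq q 121) (61712380224) (0))
  c2 := fun q s => cond (Nat.beq q 163) (cond (Nat.beq s 9) (11115336780) (0)) (cond (Nat.beq q 149) (cond (Nat.beq s 8) (7469964624) (cond (Nat.beq s 9) (11495133636) (0))) (cond (Nat.beq q 137) (cond (Nat.beq s 3) (1429255692) (cond (Nat.beq s 8) (764129268) (0))) (cond (Nat.beq q 129) (cond (Nat.beq s 8) (3403794924) (0)) (cond (Nat.beq q 125) (cond (Nat.beq s 5) (4550282712) (cond (Nat.beq s 8) (4902586764) (0))) (cond (Nat.beq q 123) (cond (Nat.beq s 5) (8232454716) (0)) (cond (Nat.beq q 121) (cond (Nat.beq s 6) (2599339788) (0)) (0)))))))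
  c3 := fun q s => cond (Nat.beq q 149) (cond (Nat.beq s 2) (324150434125) (cond (Nat.beq s 8) (1394794064) (0))) (cond (Nat.beq q 137) (cond (Nat.beq s 3) (4991933816) (0)) (cond (Nat.beq q 125) (cond (Nat.beq s 8) (666955480) (0)) (cond (Nat.beq q 123) (cond (Nat.beq s 5) (1858150564) (0)) (0))))
  cm := fun q => cond (Nat.beq q 149) (9729054252) (0)


lemma chkFull19 : chkF 4 9 19 f9 g19 P19 N19 = true := by decide +kernel

end Pool.Agent.H94.Cap5
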