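import Mathlib
import Pool.Agent.H94.Cap5.Data4

/-!
# Caps in four-dimensional flats: at most 20 points, types of 19- and 20-caps
-/

set_option autoImplicit false

namespace Pool.Agent.H94.Cap5

open Finset Pool.Agent.H29.EGZ

lemma sorted3 (x : ZMod 3 → ℕ) : ∃ σ0 σ1 σ2 : ZMod 3, σ0 ≠ σ1 ∧ σ0 ≠ σ2 ∧ σ1 ≠ σ2 ∧
    x σ0 ≤ x σ1 ∧ x σ1 ≤ x σ2 := by
  have t01 : (0 : ZMod 3) ≠ 1 := by decide
  have t02 : (0 : ZMod 3) ≠ 2 := by decide
  have t12 : (1 : ZMod 3) ≠ 2 := by decide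
  by_cases h1 : x 0 ≤ x 1
  · by_cases h2 : x 1 ≤ x 2
    · exact ⟨0, 1, 2, t01, t02, t12, h1, h2⟩
    · by_cases h3 : x 0 ≤ x 2
      · exact ⟨0, 2, 1, t02, t01, t12.symm, h3, by omega⟩
      · exact ⟨2, 0, 1, t02.symm, t12.symm, t01, by omega, h1⟩
  · by_cases h2 : x 0 ≤ x 2
    · exact ⟨1, 0, 2, t01.symm, t12, t02, by omega, h2⟩
    · by_cases h3 : x 1 ≤ x 2
      · exact ⟨1, 2, 0, t12, t01.symm, t02.symm, h3, by omega⟩
      · exact ⟨2, 1, 0, t12.symm, t02.symm, t01.symm, by omega, by omega⟩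

lemma perm_sum (x : ZMod 3 → ℕ) {σ0 σ1 σ2 : ZMod 3} (h01 : σ0 ≠ σ1) (h02 : σ0 ≠ σ2)
    (h12 : σ1 ≠ σ2) : x 0 + x 1 + x 2 = x σ0 + x σ1 + x σ2 := by
  rcases perm_key σ0 σ1 σ2 h01 h02 h12 with ⟨rfl, rfl, rfl⟩ | ⟨rfl, rfl, rfl⟩ | ⟨rfl, rfl, rfl⟩ |
    ⟨rfl, rfl, rfl⟩ | ⟨rfl, rfl, rfl⟩ | ⟨rfl, rfl, rfl⟩ <;> ring

lemma perm_sq (x : ZMod 3 → ℕ) {σ0 σ1 σ2 : ZMod 3} (h01 : σ0 ≠ σ1) (h02 : σ0 ≠ σ2)
    (h12 : σ1 ≠ σ2) : sq3 (x 0) (x 1) (x 2) = sq3 (x σ0) (x σ1) (x σ2) := by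
  unfold sq3
  simp only [Nat.add_eq, Nat.mul_eq]
  rcases perm_key σ0 σ1 σ2 h01 h02 h12 with ⟨rfl, rfl, rfl⟩ | ⟨rfl, rfl, rfl⟩ | ⟨rfl, rfl, rfl⟩ |
    ⟨rfl, rfl, rfl⟩ | ⟨rfl, rfl, rfl⟩ | ⟨rfl, rfl, rfl⟩ <;> ring

/-- sections in a four-dimensional flat -/
lemma sec_le9 {K U : Finset W5} (hK : IsCap K) (hU : IsSub U) (hm : U.card = 3)
    (hc : ConstOn U K) {ζ : W5} (hζ : ζ ∉ U) (j : ZMod 3) : sec K ζ j ≤ 9 :=
  solid_le (IsCap.mono hK (secSet_subset K ζ j)) (isSub_ext hU ζ)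
    (by rw [card_ext hU hζ, hm]) (hc.secSet ζ j)

/-- exclusion of a type by a local certificate -/
lemma excl {p n : WN} {A B C : ℕ} (hchk : chkL 4 f9 gT p n A B C = true)
    (htot : (dif p n).tot ((3 * 3 : ℕ) : ℤ) A B C < 0) {K U : Finset W5} (hK : IsCap K)
    (hU : IsSub U) (hm : U.card = 3) (hc : ConstOn U K) {h : W5} (hh : h ∉ U)
    {σ0 σ1 σ2 : ZMod 3} (h01 : σ0 ≠ σ1) (h02 : σ0 ≠ σ2) (h12 : σ1 ≠ σ2)
    (hA : sec K h σ0 = A) (hB : sec K h σ1 = B) (hC : sec K h σ2 = C) : False := by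
  have := local_nonneg (m := 3) lev9 hK hU hm hc (fun _ _ => rfl) hh h01 h02 h12 hA hB hC hchk
  linarith

lemma chk21a : loop3 9 21 (fun a b c =>
    Nat.ble 3969 (Nat.add (cu3 a b c) (Nat.mul 6 (sq3 a b c)))) = true := by decide +kernel

lemma chk21b : loop3 9 21 (fun a b c =>
    imp (Nat.ble (Nat.add (cu3 a b c) (Nat.mul 6 (sq3 a b c))) 3969)
      (orb (Nat.beq (sq3 a b c) 147) (Nat.beq (sq3 a b c) 171))) = true := by decide +kernel

lemma chk21c : loop3 9 21 (fun a b c => imp (Nat.beq (sq3 a b c) 171)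
    (imp (Nat.ble a b) (imp (Nat.ble b c)
      (andb (Nat.beq a 3) (andb (Nat.beq b 9) (Nat.beq c 9)))))) = true := by decide +kernel

lemma no21 {K U : Finset W5} (hK : IsCap K) (hU : IsSub U) (hm : U.card = 3)
    (hc : ConstOn U K) : K.card ≠ 21 := by
  intro h21
  have hs := fun ζ hζ j => sec_le9 hK hU hm hc (ζ := ζ) hζ j
  have ht : ∀ ζ, sec K ζ 0 + sec K ζ 1 + sec K ζ 2 = 21 := fun ζ => (sec_total K ζ).trans h21
  have hz := single_zero hK hc (-3969) 6 1 (fun ζ hζ => by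
    have h1 := loop3_spec chk21a (hs ζ hζ 0) (hs ζ hζ 1) (hs ζ hζ 2) (ht ζ)
    rw [Nat.ble_eq, ← s3_eq, ← s2_eq] at h1
    have h2 : (3969 : ℤ) ≤ s3 K ζ + 6 * s2 K ζ := by exact_mod_cast h1
    linarith) (by rw [h21, hm]; norm_num)
  have hty : ∀ ζ, ζ ∉ U → s2 K ζ = 147 ∨ s2 K ζ = 171 := by
    intro ζ hζ
    have h1 := loop3_spec chk21b (hs ζ hζ 0) (hs ζ hζ 1) (hs ζ hζ 2) (ht ζ)
    rw [← s3_eq, ← s2_eq] at h1
    have h2 := imp_spec h1 (by
      rw [Nat.ble_eq]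
      have h3 : ((s3 K ζ : ℤ) + 6 * s2 K ζ) ≤ 3969 := by linarith [hz ζ hζ]
      exact_mod_cast h3)
    rcases orb_spec h2 with h3 | h3
    · exact Or.inl (Nat.eq_of_beq_eq_true h3)
    · exact Or.inr (Nat.eq_of_beq_eq_true h3)
  obtain ⟨h, hh, hne⟩ : ∃ h, h ∉ U ∧ s2 K h ≠ 147 := by
    by_contra hcon
    push Not at hcon
    have h1 := single_nonneg hK hc 147 (-1) 0 (fun ζ hζ => by
      rw [hcon ζ hζ]; norm_num)
    rw [h21, hm] at h1
    norm_num at h1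
  have h171 : s2 K h = 171 := by
    rcases hty h hh with h1 | h1
    · exact absurd h1 hne
    · exact h1
  obtain ⟨σ0, σ1, σ2, h01, h02, h12, hle1, hle2⟩ := sorted3 (fun j => sec K h j)
  have hsum := (perm_sum (fun j => sec K h j) h01 h02 h12).symm.trans (ht h)
  have hsq : sq3 (sec K h σ0) (sec K h σ1) (sec K h σ2) = 171 := by
    rw [← perm_sq (fun j => sec K h j) h01 h02 h12, ← s2_eq, h171]
  have h1 := loop3_spec chk21c (hs h hh σ0) (hs h hh σ1) (hs h hh σ2) hsum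
  rw [hsq] at h1
  have h2 := imp_spec (imp_spec (imp_spec h1 rfl) (by rw [Nat.ble_eq]; exact hle1))
    (by rw [Nat.ble_eq]; exact hle2)
  exact excl chk399 tot399 hK hU hm hc hh h01 h02 h12 (Nat.eq_of_beq_eq_true (andb_spec h2).1)
    (Nat.eq_of_beq_eq_true (andb_spec (andb_spec h2).2).1)
    (Nat.eq_of_beq_eq_true (andb_spec (andb_spec h2).2).2)

lemma card_le20 {K U : Finset W5} (hK : IsCap K) (hU : IsSub U) (hm : U.card = 3)
    (hc : ConstOn U K) : K.card ≤ 20 := by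
  by_contra hlt
  obtain ⟨K', hK', hK'c⟩ := Finset.exists_subset_card_eq (show 21 ≤ K.card by omega)
  exact no21 (IsCap.mono hK hK') hU hm (hc.mono hK') hK'c

/-- the types of 20-caps -/
lemma types20 {K U : Finset W5} (hK : IsCap K) (hU : IsSub U) (hm : U.card = 3)
    (hc : ConstOn U K) (h20 : K.card = 20) {h : W5} (hh : h ∉ U) :
    s2 K h = 166 ∨ s2 K h = 136 := by
  have hs := fun j => sec_le9 hK hU hm hc hh j
  obtain ⟨σ0, σ1, σ2, h01, h02, h12, hle1, hle2⟩ := sorted3 (fun j => sec K h j)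
  have hsum := (perm_sum (fun j => sec K h j) h01 h02 h12).symm.trans ((sec_total K h).trans h20)
  have hsq := perm_sq (fun j => sec K h j) h01 h02 h12
  rw [← s2_eq] at hsq
  have h2 := hs σ2
  have hcases : (sec K h σ0 = 2 ∧ sec K h σ1 = 9 ∧ sec K h σ2 = 9) ∨
      (sec K h σ0 = 3 ∧ sec K h σ1 = 8 ∧ sec K h σ2 = 9) ∨
      (sec K h σ0 = 4 ∧ sec K h σ1 = 7 ∧ sec K h σ2 = 9) ∨
      (sec K h σ0 = 5 ∧ sec K h σ1 = 6 ∧ sec K h σ2 = 9) ∨
      (sec K h σ0 = 4 ∧ sec K h σ1 = 8 ∧ sec K h σ2 = 8) ∨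
      (sec K h σ0 = 5 ∧ sec K h σ1 = 7 ∧ sec K h σ2 = 8) ∨
      (sec K h σ0 = 6 ∧ sec K h σ1 = 6 ∧ sec K h σ2 = 8) ∨
      (sec K h σ0 = 6 ∧ sec K h σ1 = 7 ∧ sec K h σ2 = 7) := by
    have h9 : sec K h σ2 = 7 ∨ sec K h σ2 = 8 ∨ sec K h σ2 = 9 := by omega
    rcases h9 with h9 | h9 | h9
    · omega
    · have : sec K h σ1 = 6 ∨ sec K h σ1 = 7 ∨ sec K h σ1 = 8 := by omega
      rcases this with h8 | h8 | h8 <;> omega
    · have : sec K h σ1 = 6 ∨ sec K h σ1 = 7 ∨ sec K h σ1 = 8 ∨ sec K h σ1 = 9 := by omega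
      rcases this with h8 | h8 | h8 | h8 <;> omega
  rcases hcases with ⟨a, b, c⟩ | ⟨a, b, c⟩ | ⟨a, b, c⟩ | ⟨a, b, c⟩ | ⟨a, b, c⟩ | ⟨a, b, c⟩ |
    ⟨a, b, c⟩ | ⟨a, b, c⟩
  · left; rw [hsq, a, b, c]; rfl
  · exact (excl chk389 tot389 hK hU hm hc hh h01 h02 h12 a b c).elim
  · exact (excl chk479 tot479 hK hU hm hc hh h01 h02 h12 a b c).elim
  · exact (excl chk569 tot569 hK hU hm hc hh h01 h02 h12 a b c).elim
  · exact (excl chk488 tot488 hK hU hm hc hh h01 h02 h12 a b c).elim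
  · exact (excl chk578 tot578 hK hU hm hc hh h01 h02 h12 a b c).elim
  · right; rw [hsq, a, b, c]; rfl
  · exact (excl chk677 tot677 hK hU hm hc hh h01 h02 h12 a b c).elim

/-- first list of types of 19-caps -/
lemma types19a {K U : Finset W5} (hK : IsCap K) (hU : IsSub U) (hm : U.card = 3)
    (hc : ConstOn U K) (h19 : K.card = 19) {h : W5} (hh : h ∉ U) :
    g19 (s2 K h) = true := by
  have hs := fun j => sec_le9 hK hU hm hc hh j
  obtain ⟨σ0, σ1, σ2, h01, h02, h12, hle1, hle2⟩ := sorted3 (fun j => sec K h j)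
  have hsum := (perm_sum (fun j => sec K h j) h01 h02 h12).symm.trans ((sec_total K h).trans h19)
  have hsq := perm_sq (fun j => sec K h j) h01 h02 h12
  rw [← s2_eq] at hsq
  have h2 := hs σ2
  have h9 : sec K h σ2 = 7 ∨ sec K h σ2 = 8 ∨ sec K h σ2 = 9 := by omega
  rcases h9 with h9 | h9 | h9
  · have : sec K h σ1 = 6 ∨ sec K h σ1 = 7 := by omega
    rcases this with h8 | h8
    · have h7 : sec K h σ0 = 6 := by omega
      rw [hsq, h7, h8, h9]; rfl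
    · have h7 : sec K h σ0 = 5 := by omega
      rw [hsq, h7, h8, h9]; rfl
  · have : sec K h σ1 = 6 ∨ sec K h σ1 = 7 ∨ sec K h σ1 = 8 := by omega
    rcases this with h8 | h8 | h8
    · have h7 : sec K h σ0 = 5 := by omega
      rw [hsq, h7, h8, h9]; rfl
    · have h7 : sec K h σ0 = 4 := by omega
      rw [hsq, h7, h8, h9]; rfl
    · have h7 : sec K h σ0 = 3 := by omega
      rw [hsq, h7, h8, h9]; rfl
  · have : sec K h σ1 = 5 ∨ sec K h σ1 = 6 ∨ sec K h σ1 = 7 ∨ sec K h σ1 = 8 ∨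
      sec K h σ1 = 9 := by omega
    rcases this with h8 | h8 | h8 | h8 | h8
    · exact (excl chk559 tot559 hK hU hm hc hh h01 h02 h12 (by omega) h8 h9).elim
    · exact (excl chk469 tot469 hK hU hm hc hh h01 h02 h12 (by omega) h8 h9).elim
    · exact (excl chk379 tot379 hK hU hm hc hh h01 h02 h12 (by omega) h8 h9).elim
    · have h7 : sec K h σ0 = 2 := by omega
      rw [hsq, h7, h8, h9]; rfl
    · have h7 : sec K h σ0 = 1 := by omega
      rw [hsq, h7, h8, h9]; rfl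

/-- the comparison of the totals of the full certificate with the global moments -/
lemma chkTot19 : loop3 9 19 (fun a b c => imp (g19 (sq3 a b c))
    (decide ((wtc P19 N19 a b c).tot ((3 * 3 : ℕ) : ℤ) a b c +
      (if sq3 a b c = 137 ∨ sq3 a b c = 129 then 4714809120 else 0) ≤
        -287609676309072 + 1014824496960 * (sq3 a b c : ℤ) + 69371216784 * (cu3 a b c : ℤ)))) =
    true := by
  decide +kernel

/-- final list of types of 19-caps -/
lemma types19 {K U : Finset W5} (hK : IsCap K) (hU : IsSub U) (hm : U.card = 3)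
    (hc : ConstOn U K) (h19 : K.card = 19) {h : W5} (hh : h ∉ U) :
    s2 K h ≠ 137 ∧ s2 K h ≠ 129 := by
  have hfull := full_nonneg (m := 3) (M := 9) lev9 (fun _ _ h => f9_le h) (by norm_num) hK hU hm hc
    h19 (fun ζ hζ => types19a hK hU hm hc h19 hζ) chkFull19
  have hmom := sg_sum hK hc (-287609676309072) 1014824496960 69371216784
  rw [hm, h19] at hmom
  norm_num at hmom
  have hterm : ∀ ζ ∈ univ \ U, (wtc P19 N19 (sec K ζ 0) (sec K ζ 1) (sec K ζ 2)).tot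
      ((3 * 3 : ℕ) : ℤ) (sec K ζ 0) (sec K ζ 1) (sec K ζ 2) +
      (if s2 K ζ = 137 ∨ s2 K ζ = 129 then 4714809120 else 0) ≤
        -287609676309072 + 1014824496960 * (s2 K ζ : ℤ) + 69371216784 * (s3 K ζ : ℤ) := by
    intro ζ hζ
    have hζ' := (Finset.mem_sdiff.mp hζ).2
    have h1 := loop3_spec chkTot19 (sec_le9 hK hU hm hc hζ' 0) (sec_le9 hK hU hm hc hζ' 1)
      (sec_le9 hK hU hm hc hζ' 2) ((sec_total K ζ).trans h19)
    have h2 := imp_spec h1 (by rw [← s2_eq]; exact types19a hK hU hm hc h19 hζ')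
    have h3 := of_decide_eq_true h2
    rw [← s2_eq, ← s3_eq] at h3
    exact h3
  have hsum := Finset.sum_le_sum hterm
  rw [Finset.sum_add_distrib] at hsum
  have hle : ∑ ζ ∈ univ \ U, (if s2 K ζ = 137 ∨ s2 K ζ = 129 then (4714809120 : ℤ) else 0) ≤ 0 := by
    have e : ∑ ζ ∈ univ \ U, (-287609676309072 + 1014824496960 * (s2 K ζ : ℤ) +
        69371216784 * (s3 K ζ : ℤ)) = 0 := by
      simpa using hmom
    rw [e] at hsum
    linarith
  have hnn : ∀ ζ ∈ univ \ U, (0 : ℤ) ≤ (if s2 K ζ = 137 ∨ s2 K ζ = 129 then (4714809120 : ℤ) else 0) := by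
    intro ζ _
    split_ifs <;> norm_num
  have hz := (Finset.sum_eq_zero_iff_of_nonneg hnn).mp (le_antisymm hle (Finset.sum_nonneg hnn)) h
    (Finset.mem_sdiff.mpr ⟨Finset.mem_univ _, hh⟩)
  by_contra hcon
  have hor : s2 K h = 137 ∨ s2 K h = 129 := by
    by_contra h2
    push Not at h2
    exact hcon h2
  rw [if_pos hor] at hz
  norm_num at hz

/-- admissibility in four-dimensional flats -/
def f3 (s q : ℕ) : Bool :=
  orb (Nat.ble s 18) <|
  orb (andb (Nat.beq s 19) (orb (Nat.beq q 163) <| orb (Nat.beq q 149) <| orb (Nat.beq q 125) <|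
    orb (Nat.beq q 123) (Nat.beq q 121))) <|
  andb (Nat.beq s 20) (orb (Nat.beq q 166) (Nat.beq q 136))

lemma f3_le {s q : ℕ} (h : f3 s q = true) : s ≤ 20 := by
  unfold f3 at h
  rcases orb_spec h with h | h
  · rw [Nat.ble_eq] at h; omega
  · rcases orb_spec h with h | h
    · have := Nat.eq_of_beq_eq_true (andb_spec h).1
      omega
    · have := Nat.eq_of_beq_eq_true (andb_spec h).1
      omega

theorem lev3 : Lev 3 (OK 9 f3) := by
  intro K U hK hU hm hc ξ hξ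
  refine ⟨sec_le9 hK hU hm hc hξ 0, sec_le9 hK hU hm hc hξ 1, sec_le9 hK hU hm hc hξ 2, ?_⟩
  have h20 := card_le20 hK hU hm hc
  have htot : sm3 (sec K ξ 0) (sec K ξ 1) (sec K ξ 2) = K.card := sec_total K ξ
  rw [htot, ← s2_eq]
  have hcase : K.card ≤ 18 ∨ K.card = 19 ∨ K.card = 20 := by omega
  rcases hcase with h | h | h
  · unfold f3
    exact orb_left (by rw [Nat.ble_eq]; exact h)
  · have h1 := types19a hK hU hm hc h hξ
    obtain ⟨h2, h3⟩ := types19 hK hU hm hc h hξ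
    rw [h]
    unfold f3
    refine orb_right (orb_left (andb_intro rfl ?_))
    unfold g19 at h1
    rcases orb_spec h1 with h1 | h1
    · exact orb_left h1
    rcases orb_spec h1 with h1 | h1
    · exact orb_right (orb_left h1)
    rcases orb_spec h1 with h1 | h1
    · exact absurd (Nat.eq_of_beq_eq_true h1) h2
    rcases orb_spec h1 with h1 | h1
    · exact absurd (Nat.eq_of_beq_eq_true h1) h3
    rcases orb_spec h1 with h1 | h1
    · exact orb_right (orb_right (orb_left h1))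
    · exact orb_right (orb_right (orb_right h1))
  · have h1 := types20 hK hU hm hc h hξ
    rw [h]
    unfold f3
    refine orb_right (orb_right (andb_intro rfl ?_))
    rcases h1 with h1 | h1
    · rw [h1]; rfl
    · rw [h1]; rfl

end Pool.Agent.H94.Cap5
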