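import Mathlib
import Pool.Agent.H94.Cap5.Level3

/-!
# Certificates for 45-caps
-/

set_option autoImplicit false

namespace Pool.Agent.H94.Cap5

open Finset Pool.Agent.H29.EGZ

/-- condition on the other directions: no type with a large sum of squares -/
def g5 (q : ℕ) : Bool := Nat.ble q 770

def p_5_20_20 : WN := ⟨0, 560505, 0, 0, 0, 0, 0, 672606⟩

def n_5_20_20 : WN := ⟨227715, 0, 74734, 227715, 72310, 227715, 72310, 0⟩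

lemma chk_5_20_20 : chkL 9 f3 gT p_5_20_20 n_5_20_20 5 20 20 = true := by decide +kernel

lemma tot_5_20_20 : (dif p_5_20_20 n_5_20_20).tot ((3 * 1 : ℕ) : ℤ) (5 : ℕ) (20 : ℕ) (20 : ℕ) < 0 := by
  norm_num [dif, Wt.tot, p_5_20_20, n_5_20_20]

def p_6_19_20 : WN := ⟨0, 2396358, 0, 0, 0, 0, 0, 2396358⟩

def n_6_19_20 : WN := ⟨1288539, 0, 177508, 1288539, 278310, 1288539, 318810, 0⟩

lemma chk_6_19_20 : chkL 9 f3 gT p_6_19_20 n_6_19_20 6 19 20 = true := by decide +kernel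

lemma tot_6_19_20 : (dif p_6_19_20 n_6_19_20).tot ((3 * 1 : ℕ) : ℤ) (6 : ℕ) (19 : ℕ) (20 : ℕ) < 0 := by
  norm_num [dif, Wt.tot, p_6_19_20, n_6_19_20]

def p_7_18_20 : WN := ⟨0, 20928657, 3104698, 26259012, 2468796, 0, 0, 18179316⟩

def n_7_18_20 : WN := ⟨39374775, 0, 0, 0, 0, 39374775, 6820517, 0⟩

lemma chk_7_18_20 : chkL 9 f3 gT p_7_18_20 n_7_18_20 7 18 20 = true := by decide +kernel

lemma tot_7_18_20 : (dif p_7_18_20 n_7_18_20).tot ((3 * 1 : ℕ) : ℤ) (7 : ℕ) (18 : ℕ) (20 : ℕ) < 0 := by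
  norm_num [dif, Wt.tot, p_7_18_20, n_7_18_20]

def p_7_19_19 : WN := ⟨0, 36, 0, 27, 0, 42, 2, 36⟩

def n_7_19_19 : WN := ⟨43847, 0, 0, 0, 0, 0, 0, 0⟩

lemma chk_7_19_19 : chkL 9 f3 gT p_7_19_19 n_7_19_19 7 19 19 = true := by decide +kernel

lemma tot_7_19_19 : (dif p_7_19_19 n_7_19_19).tot ((3 * 1 : ℕ) : ℤ) (7 : ℕ) (19 : ℕ) (19 : ℕ) < 0 := by
  norm_num [dif, Wt.tot, p_7_19_19, n_7_19_19]

def p_8_18_19 : WN := ⟨0, 51822, 7008, 62370, 6520, 1365, 0, 29052⟩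

def n_8_18_19 : WN := ⟨46321703, 0, 0, 0, 0, 0, 910, 0⟩

lemma chk_8_18_19 : chkL 9 f3 g5 p_8_18_19 n_8_18_19 8 18 19 = true := by decide +kernel

lemma tot_8_18_19 : (dif p_8_18_19 n_8_18_19).tot ((3 * 1 : ℕ) : ℤ) (8 : ℕ) (18 : ℕ) (19 : ℕ) < 0 := by
  norm_num [dif, Wt.tot, p_8_18_19, n_8_18_19]

end Pool.Agent.H94.Cap5
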