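import Mathlib
import Pool.Agent.H94.Cap5.Data5
import Pool.Agent.H29.EGZ.Types

/-!
# 45-caps have only hyperplane classes `(15,15,15)` and `(9,18,18)`
-/

set_option autoImplicit false

namespace Pool.Agent.H94.Cap5

open Finset Pool.Agent.H29.EGZ

lemma excl5 {g : ℕ → Bool} {p n : WN} {A B C : ℕ} (hchk : chkL 9 f3 g p n A B C = true)
    (htot : (dif p n).tot ((3 * 1 : ℕ) : ℤ) A B C < 0) {D : Finset W5} (hD : IsCap D)
    (hg : ∀ ζ, ζ ∉ ({0} : Finset W5) → g (s2 D ζ) = true) {h : W5} (hh : h ≠ 0)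
    {σ0 σ1 σ2 : ZMod 3} (h01 : σ0 ≠ σ1) (h02 : σ0 ≠ σ2) (h12 : σ1 ≠ σ2)
    (hA : sec D h σ0 = A) (hB : sec D h σ1 = B) (hC : sec D h σ2 = C) : False := by
  have := local_nonneg (m := 1) lev3 hD isSub_zero (Finset.card_singleton _) (constOn_zero D) hg
    (by rw [Finset.mem_singleton]; exact hh) h01 h02 h12 hA hB hC hchk
  linarith

lemma sec_le20 {D : Finset W5} (hD : IsCap D) {h : W5} (hh : h ≠ 0) (j : ZMod 3) :
    sec D h j ≤ 20 :=
  card_le20 (IsCap.mono hD (secSet_subset D h j)) (isSub_ext isSub_zero h)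
    (by rw [card_ext isSub_zero (by rw [Finset.mem_singleton]; exact hh), Finset.card_singleton])
    ((constOn_zero D).secSet h j)

lemma chk45 : loop3 20 45 (fun a b c => imp (Nat.ble a b) (imp (Nat.ble b c)
    (imp (Nat.ble 771 (sq3 a b c))
      (orb (andb (Nat.beq a 5) (andb (Nat.beq b 20) (Nat.beq c 20)))
      (orb (andb (Nat.beq a 6) (andb (Nat.beq b 19) (Nat.beq c 20)))
      (orb (andb (Nat.beq a 7) (andb (Nat.beq b 18) (Nat.beq c 20)))
        (andb (Nat.beq a 7) (andb (Nat.beq b 19) (Nat.beq c 19)))))))) ) = true := by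
  decide +kernel

/-- no direction has a sum of squares at least 771 -/
lemma g5_ok {D : Finset W5} (hD : IsCap D) (h45 : D.card = 45) {h : W5} (hh : h ≠ 0) :
    g5 (s2 D h) = true := by
  by_contra hcon
  have hs := fun j => sec_le20 hD hh j
  obtain ⟨σ0, σ1, σ2, h01, h02, h12, hle1, hle2⟩ := sorted3 (fun j => sec D h j)
  have hsum := (perm_sum (fun j => sec D h j) h01 h02 h12).symm.trans ((sec_total D h).trans h45)
  have hsq := perm_sq (fun j => sec D h j) h01 h02 h12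
  rw [← s2_eq] at hsq
  have h771 : 771 ≤ sq3 (sec D h σ0) (sec D h σ1) (sec D h σ2) := by
    rw [← hsq]
    unfold g5 at hcon
    rw [Nat.ble_eq] at hcon
    omega
  have h1 := imp_spec (imp_spec (imp_spec (loop3_spec chk45 (hs σ0) (hs σ1) (hs σ2) hsum)
    (by rw [Nat.ble_eq]; exact hle1)) (by rw [Nat.ble_eq]; exact hle2))
    (by rw [Nat.ble_eq]; exact h771)
  have fin : ∀ {a b c : ℕ}, andb (Nat.beq (sec D h σ0) a) (andb (Nat.beq (sec D h σ1) b)
      (Nat.beq (sec D h σ2) c)) = true → sec D h σ0 = a ∧ sec D h σ1 = b ∧ sec D h σ2 = c :=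
    fun hx => ⟨Nat.eq_of_beq_eq_true (andb_spec hx).1,
      Nat.eq_of_beq_eq_true (andb_spec (andb_spec hx).2).1,
      Nat.eq_of_beq_eq_true (andb_spec (andb_spec hx).2).2⟩
  rcases orb_spec h1 with h1 | h1
  · obtain ⟨a, b, c⟩ := fin h1
    exact excl5 chk_5_20_20 tot_5_20_20 hD (fun _ _ => rfl) hh h01 h02 h12 a b c
  rcases orb_spec h1 with h1 | h1
  · obtain ⟨a, b, c⟩ := fin h1
    exact excl5 chk_6_19_20 tot_6_19_20 hD (fun _ _ => rfl) hh h01 h02 h12 a b c
  rcases orb_spec h1 with h1 | h1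
  · obtain ⟨a, b, c⟩ := fin h1
    exact excl5 chk_7_18_20 tot_7_18_20 hD (fun _ _ => rfl) hh h01 h02 h12 a b c
  · obtain ⟨a, b, c⟩ := fin h1
    exact excl5 chk_7_19_19 tot_7_19_19 hD (fun _ _ => rfl) hh h01 h02 h12 a b c

/-- no direction has two large sections -/
theorem not_big {D : Finset W5} (hD : IsCap D) (h45 : D.card = 45) {h : W5} (hh : h ≠ 0) :
    ¬ Big (sec D h 0) (sec D h 1) (sec D h 2) := by
  intro hbig
  have hs := fun j => sec_le20 hD hh j
  have h770 := g5_ok hD h45 hh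
  unfold g5 at h770
  rw [Nat.ble_eq, s2_eq] at h770
  have htot := (sec_total D h).trans h45
  obtain ⟨σ0, σ1, σ2, h01, h02, h12, hle1, hle2⟩ := sorted3 (fun j => sec D h j)
  have hsum := (perm_sum (fun j => sec D h j) h01 h02 h12).symm.trans htot
  have hsq := perm_sq (fun j => sec D h j) h01 h02 h12
  rw [hsq] at h770
  have hb : 19 ≤ sec D h σ2 ∧ 18 ≤ sec D h σ1 := by
    have hs0 := hs 0
    have hs1 := hs 1
    have hs2 := hs 2
    unfold Big at hbig
    rcases perm_key σ0 σ1 σ2 h01 h02 h12 with ⟨rfl, rfl, rfl⟩ | ⟨rfl, rfl, rfl⟩ |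
      ⟨rfl, rfl, rfl⟩ | ⟨rfl, rfl, rfl⟩ | ⟨rfl, rfl, rfl⟩ | ⟨rfl, rfl, rfl⟩ <;> omega
  have h2 := hs σ2
  have h1 := hs σ1
  have hcases : (sec D h σ0 = 8 ∧ sec D h σ1 = 18 ∧ sec D h σ2 = 19) ∨
      771 ≤ sq3 (sec D h σ0) (sec D h σ1) (sec D h σ2) := by
    have e2 : sec D h σ2 = 19 ∨ sec D h σ2 = 20 := by omega
    have e1 : sec D h σ1 = 18 ∨ sec D h σ1 = 19 ∨ sec D h σ1 = 20 := by omega
    rcases e2 with e2 | e2 <;> rcases e1 with e1 | e1 | e1
    · left
      exact ⟨by omega, e1, e2⟩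
    · right
      have e0 : sec D h σ0 = 7 := by omega
      rw [e0, e1, e2]; decide
    · right
      have e0 : sec D h σ0 = 6 := by omega
      rw [e0, e1, e2]; decide
    · right
      have e0 : sec D h σ0 = 7 := by omega
      rw [e0, e1, e2]; decide
    · right
      have e0 : sec D h σ0 = 6 := by omega
      rw [e0, e1, e2]; decide
    · right
      have e0 : sec D h σ0 = 5 := by omega
      rw [e0, e1, e2]; decide
  rcases hcases with ⟨a, b, c⟩ | hcon
  · exact excl5 chk_8_18_19 tot_8_18_19 hD (fun ζ hζ => g5_ok hD h45 (by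
      rw [Finset.mem_singleton] at hζ; exact hζ)) hh h01 h02 h12 a b c
  · omega

/-- **All hyperplane classes of a 45-cap have type `(15,15,15)` or `(9,18,18)`.** -/
theorem types45 {D : Finset W5} (hD : IsCap D) (h45 : D.card = 45) :
    ∀ ξ : W5, ξ ≠ 0 → Ty (sec D ξ 0) (sec D ξ 1) (sec D ξ 2) := by
  rcases dichotomy hD h45 with ⟨ξ, hξ, hb⟩ | h
  · exact absurd hb (not_big hD h45 hξ)
  · exact h

end Pool.Agent.H94.Cap5
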